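import Pool.Agent.H273Z.Nik.MG

set_option autoImplicit false
set_option linter.all false

namespace Pool.Agent.H273Z.Nik

open Set BooleanSubalgebra Filter

abbrev Pt : Type := ℕ × ℕ

def cone (m n r : ℕ) : Set Pt := {p | p.1 = m ∧ p.2 % 3 ^ n = r % 3 ^ n}

def piece (m : ℕ) : Set Pt := cone m 0 0

lemma mem_piece {m : ℕ} {p : Pt} : p ∈ piece m ↔ p.1 = m := by
  simp [piece, cone, Nat.mod_one]

def Cones : Set (Set Pt) := {E | ∃ m n r, E = cone m n r}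

lemma cone_mem (m n r : ℕ) : cone m n r ∈ Cones := ⟨m, n, r, rfl⟩

lemma self_mem_cone (m n r : ℕ) : (m, r) ∈ cone m n r := ⟨rfl, rfl⟩

lemma mod_pow_of_le {y y' n L : ℕ} (h : n ≤ L) (e : y % 3 ^ L = y' % 3 ^ L) :
    y % 3 ^ n = y' % 3 ^ n := by
  have hd : 3 ^ n ∣ 3 ^ L := pow_dvd_pow 3 h
  rw [← Nat.mod_mod_of_dvd y hd, e, Nat.mod_mod_of_dvd y' hd]

lemma cone_sub {m n r L s : ℕ} (h : n ≤ L) (e : s % 3 ^ n = r % 3 ^ n) :
    cone m L s ⊆ cone m n r := fun p hp => ⟨hp.1, (mod_pow_of_le h hp.2).trans e⟩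

lemma sub_cone (m n r i : ℕ) : cone m (n + 1) (r % 3 ^ n + i * 3 ^ n) ⊆ cone m n r :=
  cone_sub (Nat.le_succ n) (by simp)

lemma sub_cone_disj (m n r : ℕ) {i j : ℕ} (hi : i < 3) (hj : j < 3) (hij : i ≠ j) :
    Disjoint (cone m (n + 1) (r % 3 ^ n + i * 3 ^ n)) (cone m (n + 1) (r % 3 ^ n + j * 3 ^ n)) := by
  rw [Set.disjoint_left]
  rintro p ⟨_, h1⟩ ⟨_, h2⟩
  have hp : 0 < 3 ^ n := by positivity
  have hr : r % 3 ^ n < 3 ^ n := Nat.mod_lt _ hp
  have e := h1.symm.trans h2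
  have e1 : r % 3 ^ n + i * 3 ^ n < 3 ^ (n + 1) := by rw [pow_succ]; nlinarith
  have e2 : r % 3 ^ n + j * 3 ^ n < 3 ^ (n + 1) := by rw [pow_succ]; nlinarith
  rw [Nat.mod_eq_of_lt e1, Nat.mod_eq_of_lt e2] at e
  exact hij (Nat.eq_of_mul_eq_mul_right hp (by omega))

open Classical in
noncomputable def ind (a : Set Pt) (p : Pt) : ℤ := if p ∈ a then 1 else 0

noncomputable def phi (m k : ℕ) (a : Set Pt) : ℤ :=
  ∑ s ∈ Finset.range (3 ^ k), (ind a (m, 3 ^ k + s) - ind a (m, 2 * 3 ^ k + s))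

lemma ind_union {a b : Set Pt} (h : Disjoint a b) (p : Pt) :
    ind (a ∪ b) p = ind a p + ind b p := by
  rw [Set.disjoint_left] at h
  by_cases h1 : p ∈ a <;> by_cases h2 : p ∈ b <;> simp [ind, h1, h2]
  exact h h1 h2

lemma phi_union (m k : ℕ) {a b : Set Pt} (h : Disjoint a b) :
    phi m k (a ∪ b) = phi m k a + phi m k b := by
  simp only [phi, ind_union h, ← Finset.sum_add_distrib]
  exact Finset.sum_congr rfl fun s _ => by ring

lemma phi_sdiff (m k : ℕ) {a b : Set Pt} (h : b ⊆ a) :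
    phi m k (a \ b) = phi m k a - phi m k b := by
  have := phi_union m k (a := a \ b) (b := b) disjoint_sdiff_left
  rw [diff_union_of_subset h] at this
  omega

lemma phi_congr {m k : ℕ} {a b : Set Pt}
    (h : ∀ y, 3 ^ k ≤ y → y < 3 ^ (k + 1) → ((m, y) ∈ a ↔ (m, y) ∈ b)) :
    phi m k a = phi m k b := by
  refine Finset.sum_congr rfl fun s hs => ?_
  have hs' := Finset.mem_range.1 hs
  simp only [ind]
  rw [h (3 ^ k + s) (by omega) (by rw [pow_succ]; omega),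
    h (2 * 3 ^ k + s) (by omega) (by rw [pow_succ]; omega)]

lemma phi_empty (m k : ℕ) : phi m k ∅ = 0 := by simp [phi, ind]

def Per (n : ℕ) (a : Set Pt) : Prop :=
  ∀ m y y', y % 3 ^ n = y' % 3 ^ n → ((m, y) ∈ a ↔ (m, y') ∈ a)

lemma Per.mono {n L : ℕ} {a : Set Pt} (h : Per n a) (hL : n ≤ L) : Per L a :=
  fun m y y' e => h m y y' (mod_pow_of_le hL e)

lemma phi_per {n k : ℕ} {a : Set Pt} (h : Per n a) (hk : n ≤ k) (m : ℕ) : phi m k a = 0 := by
  refine Finset.sum_eq_zero fun s _ => ?_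
  simp only [ind]
  rw [h.mono hk m (3 ^ k + s) (2 * 3 ^ k + s) (by simp), sub_self]

lemma per_of_mem {a : Set Pt} (ha : a ∈ cl Cones) : ∃ n, Per n a := by
  induction ha using closure_bot_sup_induction with
  | mem z hz =>
    obtain ⟨m, n, r, rfl⟩ := hz
    exact ⟨n, fun m' y y' e => by simp [cone, e]⟩
  | bot => exact ⟨0, fun m' y y' e => Iff.rfl⟩
  | sup z _ w _ hz hw =>
    obtain ⟨n, hn⟩ := hz
    obtain ⟨n', hn'⟩ := hw
    exact ⟨max n n', fun m y y' e => or_congr (hn.mono (le_max_left _ _) m y y' e)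
      (hn'.mono (le_max_right _ _) m y y' e)⟩
  | compl z _ hz =>
    obtain ⟨n, hn⟩ := hz
    exact ⟨n, fun m y y' e => not_congr (hn m y y' e)⟩

lemma cnt {n k : ℕ} (h : n ≤ k) (r : ℕ) :
    3 ^ n * ((Finset.range (3 ^ k)).filter fun s => s % 3 ^ n = r % 3 ^ n).card = 3 ^ k := by
  have hp : 0 < 3 ^ n := by positivity
  have h1 := Nat.count_modEq_card (3 ^ k) hp r
  rw [Nat.count_eq_card_filter_range] at h1
  have hd : 3 ^ n ∣ 3 ^ k := pow_dvd_pow 3 h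
  rw [Nat.mod_eq_zero_of_dvd hd] at h1
  simp only [Nat.not_lt_zero, if_false, add_zero] at h1
  have h2 : ((Finset.range (3 ^ k)).filter fun s => s % 3 ^ n = r % 3 ^ n).card
      = 3 ^ k / 3 ^ n := by
    rw [← h1]; rfl
  rw [h2, Nat.mul_div_cancel' hd]

lemma add_mod_pow {n k : ℕ} (h : n ≤ k) (i s : ℕ) : (i * 3 ^ k + s) % 3 ^ n = s % 3 ^ n := by
  obtain ⟨d, rfl⟩ := Nat.exists_eq_add_of_le h
  rw [pow_add, ← mul_assoc, mul_comm i, mul_assoc, Nat.mul_add_mod]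

lemma phi_cone_le {m n k r : ℕ} {a : Set Pt} (h : n ≤ k)
    (ha : ∀ y, (m, y) ∈ a → y % 3 ^ n = r % 3 ^ n) : 3 ^ n * |phi m k a| ≤ 3 ^ k := by
  have h1 : |phi m k a| ≤
      (((Finset.range (3 ^ k)).filter fun s => s % 3 ^ n = r % 3 ^ n).card : ℤ) := by
    refine (Finset.abs_sum_le_sum_abs _ _).trans ?_
    rw [Finset.card_filter]
    push_cast
    refine Finset.sum_le_sum fun s _ => ?_
    by_cases hs : s % 3 ^ n = r % 3 ^ n
    · simp only [ind, hs, if_true]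
      split_ifs <;> simp
    · have e1 : (m, 3 ^ k + s) ∉ a := fun h' => hs (by
        have := ha _ h'
        rw [← this, ← add_mod_pow h 1 s, one_mul])
      have e2 : (m, 2 * 3 ^ k + s) ∉ a := fun h' => hs (by
        have := ha _ h'
        rw [← this, ← add_mod_pow h 2 s])
      simp [ind, hs, e1, e2]
  have h2 := cnt h r
  calc (3 : ℤ) ^ n * |phi m k a| ≤ 3 ^ n *
        (((Finset.range (3 ^ k)).filter fun s => s % 3 ^ n = r % 3 ^ n).card : ℤ) :=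
        mul_le_mul_of_nonneg_left h1 (by positivity)
    _ = 3 ^ k := by exact_mod_cast h2

lemma phi_le (m k : ℕ) (a : Set Pt) : |phi m k a| ≤ 3 ^ k := by
  have := phi_cone_le (m := m) (n := 0) (k := k) (r := 0) (a := a) (Nat.zero_le _)
    (fun y _ => by simp [Nat.mod_one])
  simpa using this

lemma level {n k : ℕ} (m r : ℕ) (h : n ≤ k) (β : ℤ) (hβ : 3 ^ n * |β| ≤ 3 ^ k) :
    ∃ F : Set ℕ, (∀ y ∈ F, 3 ^ k ≤ y ∧ y < 3 ^ (k + 1) ∧ y % 3 ^ n = r % 3 ^ n) ∧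
      phi m k {p | p.2 ∈ F} = β := by
  classical
  have h2 := cnt h r
  have h3 : β.natAbs ≤ ((Finset.range (3 ^ k)).filter fun s => s % 3 ^ n = r % 3 ^ n).card := by
    have hp : 0 < 3 ^ n := by positivity
    apply Nat.le_of_mul_le_mul_left _ hp
    rw [h2]
    have : ((3 ^ n * β.natAbs : ℕ) : ℤ) ≤ ((3 ^ k : ℕ) : ℤ) := by
      push_cast
      exact hβ
    exact_mod_cast this
  obtain ⟨S, hS, hc⟩ := Finset.exists_subset_card_eq h3
  have hS1 : ∀ s ∈ S, s < 3 ^ k ∧ s % 3 ^ n = r % 3 ^ n := fun s hs => by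
    simpa using hS hs
  have hsum : ∑ s ∈ Finset.range (3 ^ k), (if s ∈ S then (1 : ℤ) else 0) = β.natAbs := by
    rw [← hc, Finset.sum_ite_mem, Finset.inter_eq_right.2 (fun s hs => by
      simpa using (hS1 s hs).1)]
    simp
  rcases le_total 0 β with hb | hb
  · refine ⟨{y | ∃ s ∈ S, y = 3 ^ k + s}, ?_, ?_⟩
    · rintro _ ⟨s, hs, rfl⟩
      have := hS1 s hs
      refine ⟨by omega, by rw [pow_succ]; omega, ?_⟩
      rw [← this.2, ← add_mod_pow h 1 s, one_mul]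
    · rw [← Int.natAbs_of_nonneg hb, ← hsum]
      refine Finset.sum_congr rfl fun s hs => ?_
      have e2 : ¬ ∃ t ∈ S, 2 * 3 ^ k + s = 3 ^ k + t := by
        rintro ⟨t, ht, e⟩
        have := hS1 t ht
        omega
      simp [ind, e2]
  · refine ⟨{y | ∃ s ∈ S, y = 2 * 3 ^ k + s}, ?_, ?_⟩
    · rintro _ ⟨s, hs, rfl⟩
      have := hS1 s hs
      refine ⟨by omega, by rw [pow_succ]; omega, ?_⟩
      rw [← this.2, ← add_mod_pow h 2 s]
    · have : β = - (β.natAbs : ℤ) := by omega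
      rw [this, ← hsum, ← Finset.sum_neg_distrib]
      refine Finset.sum_congr rfl fun s hs => ?_
      have hs' := Finset.mem_range.1 hs
      have e2 : ¬ ∃ t ∈ S, 3 ^ k + s = 2 * 3 ^ k + t := by
        rintro ⟨t, ht, e⟩
        omega
      simp [ind, e2]

lemma block {n K K' : ℕ} (m r : ℕ) (h : n ≤ K) (hK : K ≤ K') (β : ℕ → ℤ)
    (hβ : ∀ k, K ≤ k → 3 ^ n * |β k| ≤ 3 ^ k) :
    ∃ c ∈ cl Cones, c ⊆ cone m n r ∧ (∀ p ∈ c, 3 ^ K ≤ p.2) ∧
      (∀ k, K ≤ k → k < K' → phi m k c = β k) ∧ ∀ k, K' ≤ k → phi m k c = 0 := by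
  classical
  have h1 : ∀ k, ∃ F : Set ℕ, K ≤ k →
      (∀ y ∈ F, 3 ^ k ≤ y ∧ y < 3 ^ (k + 1) ∧ y % 3 ^ n = r % 3 ^ n) ∧
      phi m k {p | p.2 ∈ F} = β k := by
    intro k
    by_cases hk : K ≤ k
    · obtain ⟨F, hF⟩ := level m r (h.trans hk) (β k) (hβ k hk)
      exact ⟨F, fun _ => hF⟩
    · exact ⟨∅, fun h => absurd h hk⟩
  choose F hF using h1
  refine ⟨{p | p.1 = m ∧ ∃ k, K ≤ k ∧ k < K' ∧ p.2 % 3 ^ K' ∈ F k}, ?_, ?_, ?_, ?_, ?_⟩
  · have : {p : Pt | p.1 = m ∧ ∃ k, K ≤ k ∧ k < K' ∧ p.2 % 3 ^ K' ∈ F k} =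
        ⨆ y ∈ {y | y < 3 ^ K' ∧ ∃ k, K ≤ k ∧ k < K' ∧ y ∈ F k}, cone m K' y := by
      ext p
      simp only [mem_setOf_eq, iSup_eq_iUnion, mem_iUnion, exists_prop, cone]
      constructor
      · rintro ⟨h1, h2⟩
        exact ⟨p.2 % 3 ^ K', ⟨Nat.mod_lt _ (by positivity), h2⟩, h1, by simp⟩
      · rintro ⟨y, ⟨h1, h2⟩, h3, h4⟩
        rw [Nat.mod_eq_of_lt h1] at h4
        exact ⟨h3, h4 ▸ h2⟩
    rw [this]
    exact biSup_mem ((finite_lt_nat (3 ^ K')).subset fun y hy => hy.1)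
      fun y _ => sub_cl (cone_mem _ _ _)
  · rintro p ⟨h1, k, h2, h3, h4⟩
    refine ⟨h1, ?_⟩
    rw [← ((hF k h2).1 _ h4).2.2, Nat.mod_mod_of_dvd _ (pow_dvd_pow 3 (h.trans hK))]
  · rintro p ⟨h1, k, h2, h3, h4⟩
    exact (Nat.pow_le_pow_right (by norm_num) h2).trans
      (((hF k h2).1 _ h4).1.trans (Nat.mod_le _ _))
  · intro k h2 h3
    rw [← (hF k h2).2]
    apply phi_congr
    intro y hy1 hy2
    have hy : y % 3 ^ K' = y :=
      Nat.mod_eq_of_lt (hy2.trans_le (Nat.pow_le_pow_right (by norm_num) h3))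
    simp only [mem_setOf_eq, true_and, hy]
    constructor
    · rintro ⟨k', h4, h5, h6⟩
      have h7 := (hF k' h4).1 _ h6
      have e1 : k < k' + 1 := (Nat.pow_lt_pow_iff_right (by norm_num)).1 (hy1.trans_lt h7.2.1)
      have e2 : k' < k + 1 := (Nat.pow_lt_pow_iff_right (by norm_num)).1 (h7.1.trans_lt hy2)
      have : k' = k := by omega
      exact this ▸ h6
    · exact fun h6 => ⟨k, h2, h3, h6⟩
  · intro k hk
    refine phi_per (n := K') (fun m' y y' e => ?_) hk m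
    simp only [mem_setOf_eq, e]

end Pool.Agent.H273Z.Nik
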