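import Pool.Agent.H273Z.Nik.Guess

set_option autoImplicit false
set_option linter.all false
set_option maxHeartbeats 400000

namespace Pool.Agent.H273Z.Nik

open Set BooleanSubalgebra Filter

variable {A : BooleanSubalgebra (Set Pt)}

lemma good_off {m m' : ℕ} {a : Set Pt} (h : a ⊆ piece m) (hm : m' ≠ m) (k : ℕ) :
    phi m' k a = 0 := by
  rw [← phi_empty m' k]
  exact phi_congr fun y _ _ => ⟨fun h1 => absurd (mem_piece.1 (h h1)) hm, fun h1 => h1.elim⟩

lemma cone_piece (m n r : ℕ) : cone m n r ⊆ piece m := fun p hp => mem_piece.2 hp.1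

theorem corr (hC : Cones ⊆ A) (hI : ∀ a ∈ A, Lin a ∧ Thick a) (hG : Guessing A)
    {b : Set Pt} (hb : b ∈ A) (m n0 r0 : ℕ) :
    ∃ d ∈ A, d ⊆ cone m n0 r0 ∧ ∀ᶠ k in atTop, phi m k d = phi m k b := by
  have hCA : cl Cones ≤ A := closure_le.2 hC
  have hth : ∀ n, ∃ K, n ≤ K ∧ ∀ k, K ≤ k → 3 ^ n * |phi m k b| ≤ 3 ^ k := by
    intro n
    obtain ⟨K, hK⟩ := eventually_atTop.1 ((hI b hb).1.2 m n)
    exact ⟨max n K, le_max_left _ _, fun k hk => hK k ((le_max_right _ _).trans hk)⟩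
  obtain ⟨K0, k01, k02⟩ := hth (n0 + 1)
  let Adm : St → Prop := fun s =>
    s.1 ∈ A ∧ s.2.1 = cone m s.2.2.1 s.2.2.2.1 ∧ Disjoint s.1 s.2.1 ∧
      s.1 ⊆ cone m n0 r0 ∧ s.2.1 ⊆ cone m n0 r0 ∧ s.2.2.1 + 1 ≤ s.2.2.2.2 ∧
      (∀ k, s.2.2.2.2 ≤ k → 3 ^ (s.2.2.1 + 1) * |phi m k b| ≤ 3 ^ k) ∧
      (∀ k, K0 ≤ k → k < s.2.2.2.2 → phi m k s.1 = phi m k b) ∧
      ∀ k, s.2.2.2.2 ≤ k → phi m k s.1 = 0
  let R : St → St → Prop := fun s s' =>
    s.2.2.2.2 < s'.2.2.2.2 ∧ ∀ p ∈ s'.1, p ∈ s.1 ∨ 3 ^ s.2.2.2.2 ≤ p.2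
  obtain ⟨s, hs, hd⟩ := hG Adm R
    ⟨(∅, cone m n0 r0, n0, r0, K0), bot_mem, rfl, by simp, empty_subset _, subset_rfl, k01, k02,
      fun k h1 h2 => absurd h1 (not_le.2 h2), fun k _ => phi_empty m k⟩
    (fun s hs => ⟨hs.1, hs.2.1 ▸ hC (cone_mem _ _ _), hs.2.2.1⟩)
    (by
      rintro ⟨P, U, n, r, K⟩ ⟨a1, a2, a3, a4, a5, a6, a7, a8, a9⟩ e he
      simp only at a1 a2 a3 a4 a5 a6 a7 a8 a9
      subst a2
      have hsub : ∃ n' r', cone m n' r' ⊆ cone m (n + 1) (r % 3 ^ n + 1 * 3 ^ n) ∧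
          (cone m n' r' ⊆ e ∨ cone m n' r' ⊆ eᶜ) := by
        by_cases h1 : (m, r % 3 ^ n + 1 * 3 ^ n) ∈ e
        · obtain ⟨m', n', r', h2⟩ := (hI _ (inf_mem (hC (cone_mem m (n + 1)
            (r % 3 ^ n + 1 * 3 ^ n))) he)).2 ⟨_, self_mem_cone _ _ _, h1⟩
          have : m' = m := (h2 (self_mem_cone _ _ _)).1.1
          subst this
          exact ⟨n', r', fun p hp => (h2 hp).1, Or.inl fun p hp => (h2 hp).2⟩
        · obtain ⟨m', n', r', h2⟩ := (hI _ (inf_mem (hC (cone_mem m (n + 1)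
            (r % 3 ^ n + 1 * 3 ^ n))) (compl_mem he))).2 ⟨_, self_mem_cone _ _ _, h1⟩
          have : m' = m := (h2 (self_mem_cone _ _ _)).1.1
          subst this
          exact ⟨n', r', fun p hp => (h2 hp).1, Or.inr fun p hp => (h2 hp).2⟩
      obtain ⟨n', r', b1, b2⟩ := hsub
      obtain ⟨K1, c1, c2⟩ := hth (n' + 1)
      obtain ⟨c, d1, d2, d3, d4, d5⟩ := block (K' := max K1 (K + 1)) m (r % 3 ^ n + 0 * 3 ^ n)
        a6 (by omega) (fun k => phi m k b) a7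
      have e0 := sub_cone m n r 0
      have e1 := sub_cone m n r 1
      have e2 := sub_cone m n r 2
      have f01 := sub_cone_disj m n r (i := 0) (j := 1) (by norm_num) (by norm_num) (by norm_num)
      have f02 := sub_cone_disj m n r (i := 0) (j := 2) (by norm_num) (by norm_num) (by norm_num)
      have f12 := sub_cone_disj m n r (i := 1) (j := 2) (by norm_num) (by norm_num) (by norm_num)
      have hPc : Disjoint P c := a3.mono_right (d2.trans e0)
      refine ⟨(P ∪ c, cone m n' r', n', r', max K1 (K + 1)), ⟨sup_mem a1 (hCA d1), rfl, ?_,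
        union_subset a4 ((d2.trans e0).trans a5), (b1.trans e1).trans a5,
        c1.trans (le_max_left _ _), fun k hk => c2 k ((le_max_left _ _).trans hk), ?_, ?_⟩,
        ⟨?_, ?_⟩, ⟨b1.trans e1, subset_union_left, union_subset_union_right _ (d2.trans e0), ?_⟩,
        b2⟩
      · exact disjoint_union_left.2 ⟨a3.mono_right (b1.trans e1), f01.mono d2 b1⟩
      · intro k h1 h2
        show phi m k (P ∪ c) = _
        rw [phi_union m k hPc]
        rcases lt_or_ge k K with h3 | h3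
        · have : phi m k c = 0 := by
            rw [← phi_empty m k]
            refine phi_congr fun y _ h5 => ⟨fun h6 => ?_, fun h6 => h6.elim⟩
            have h7 := d3 _ h6
            have h8 : 3 ^ (k + 1) ≤ 3 ^ K := Nat.pow_le_pow_right (by norm_num) h3
            simp only at h7
            omega
          rw [this, a8 k h1 h3, add_zero]
        · rw [a9 k h3, d4 k h3 h2, zero_add]
      · intro k h1
        show phi m k (P ∪ c) = _
        have h1' : max K1 (K + 1) ≤ k := h1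
        rw [phi_union m k hPc, a9 k (by omega), d5 k h1', add_zero]
      · show K < max K1 (K + 1)
        omega
      · rintro p (hp | hp)
        · exact Or.inl hp
        · exact Or.inr (d3 p hp)
      · have g := self_mem_cone m (n + 1) (r % 3 ^ n + 2 * 3 ^ n)
        refine ⟨_, ⟨e2 g, fun h => Set.disjoint_left.1 f12 (b1 h) g⟩, ?_⟩
        rintro (h | h)
        · exact Set.disjoint_left.1 a3 h (e2 g)
        · exact Set.disjoint_left.1 f02 (d2 h) g)
    (by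
      intro s hs _
      filter_upwards [eventually_ne_atTop m] with m' hm'
      refine Eventually.of_forall fun k => good_off (m := m) ?_ hm' k
      exact iUnion_subset fun j => (hs j).1.2.2.2.1.trans (cone_piece _ _ _))
  refine ⟨_, hd, iUnion_subset fun j => (hs j).1.2.2.2.1, ?_⟩
  have hK : StrictMono fun j => (s j).2.2.2.2 := strictMono_nat_of_lt_succ fun j => (hs j).2.1.1
  have hP : Monotone fun j => (s j).1 := monotone_nat_of_le_succ fun j => (hs j).2.2.2.1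
  filter_upwards [eventually_ge_atTop K0] with k hk
  have h1 : k + 1 ≤ (s (k + 1)).2.2.2.2 := hK.id_le (k + 1)
  rw [← (hs (k + 1)).1.2.2.2.2.2.2.2.1 k hk h1]
  refine phi_congr fun y _ hy => ⟨fun h2 => ?_, fun h2 => mem_iUnion.2 ⟨_, h2⟩⟩
  obtain ⟨i, hi⟩ := mem_iUnion.1 h2
  rcases le_total i (k + 1) with h3 | h3
  · exact hP h3 hi
  · induction i, h3 using Nat.le_induction with
    | base => exact hi
    | succ i h4 ih =>
      rcases (hs i).2.1.2 _ hi with h5 | h5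
      · exact ih h5
      · exfalso
        have h6 : (s (k + 1)).2.2.2.2 ≤ (s i).2.2.2.2 := hK.monotone h4
        have h7 : 3 ^ (k + 1) ≤ 3 ^ (s i).2.2.2.2 :=
          Nat.pow_le_pow_right (by norm_num) (h1.trans h6)
        simp only at h5
        omega

def Add (A : BooleanSubalgebra (Set Pt)) (ρ : Set Pt → ℝ) : Prop :=
  ∀ a ∈ A, ∀ b ∈ A, Disjoint a b → ρ (a ∪ b) = ρ a + ρ b

def Bdd (A : BooleanSubalgebra (Set Pt)) (ρ : Set Pt → ℝ) : Prop := ∃ K, ∀ a ∈ A, |ρ a| ≤ K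

lemma Add.sdiff {ρ : Set Pt → ℝ} (h : Add A ρ) {a b : Set Pt} (ha : a ∈ A) (hb : b ∈ A)
    (hab : b ⊆ a) : ρ (a \ b) = ρ a - ρ b := by
  have := h (a \ b) (sdiff_mem ha hb) b hb disjoint_sdiff_left
  rw [diff_union_of_subset hab] at this
  linarith

lemma small_one {ρ : Set Pt → ℝ} (h : Add A ρ) (hb : Bdd A ρ) (q : Ultrafilter Pt) {ε : ℝ}
    (hε : 0 < ε) : ∃ a ∈ A, a ∈ q ∧ ∀ b ∈ A, b ⊆ a → b ∉ q → ρ b ≤ ε := by
  obtain ⟨K, hK⟩ := hb
  let T : Set ℝ := ρ '' {b | b ∈ A ∧ b ∉ q}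
  have hT : BddAbove T := ⟨K, by
    rintro _ ⟨b, h1, rfl⟩
    exact (le_abs_self _).trans (hK b h1.1)⟩
  have hne : T.Nonempty := ⟨_, ∅, ⟨bot_mem, q.empty_notMem⟩, rfl⟩
  obtain ⟨_, ⟨b1, h1, rfl⟩, h2⟩ := exists_lt_of_lt_csSup hne (sub_lt_self (sSup T) hε)
  refine ⟨b1ᶜ, compl_mem h1.1, Ultrafilter.compl_mem_iff_notMem.2 h1.2, fun b h3 h4 h5 => ?_⟩
  have h6 : ρ (b ∪ b1) ≤ sSup T := le_csSup hT ⟨b ∪ b1, ⟨sup_mem h3 h1.1, fun h7 =>
    (Ultrafilter.union_mem_iff.1 h7).elim h5 h1.2⟩, rfl⟩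
  rw [h b h3 b1 h1.1 (subset_compl_iff_disjoint_right.1 h4)] at h6
  linarith

lemma small {ρ : Set Pt → ℝ} (h : Add A ρ) (hb : Bdd A ρ) (q : Ultrafilter Pt) {ε : ℝ}
    (hε : 0 < ε) : ∃ a ∈ A, a ∈ q ∧ ∀ b ∈ A, b ⊆ a → b ∉ q → |ρ b| ≤ ε := by
  obtain ⟨a, h1, h2, h3⟩ := small_one h hb q hε
  obtain ⟨a', h1', h2', h3'⟩ := small_one (A := A) (ρ := fun b => - ρ b)
    (fun a ha b hb hab => by simp only [h a ha b hb hab]; ring)
    (by obtain ⟨K, hK⟩ := hb; exact ⟨K, fun a ha => by simpa using hK a ha⟩) q hε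
  refine ⟨a ∩ a', inf_mem h1 h1', inter_mem h2 h2', fun b k1 k2 k3 => abs_le.2 ⟨?_, ?_⟩⟩
  · have : - ρ b ≤ ε := h3' b k1 (k2.trans inter_subset_right) k3
    linarith
  · exact h3 b k1 (k2.trans inter_subset_left) k3

lemma subcone_not (q : Ultrafilter Pt) (m n r : ℕ) :
    ∃ n' r', cone m n' r' ⊆ cone m n r ∧ cone m n' r' ∉ q := by
  have f01 := sub_cone_disj m n r (i := 0) (j := 1) (by norm_num) (by norm_num) (by norm_num)
  by_cases h : cone m (n + 1) (r % 3 ^ n + 0 * 3 ^ n) ∈ q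
  · refine ⟨_, _, sub_cone m n r 1, fun h' => ?_⟩
    have := inter_mem h h'
    rw [f01.inter_eq] at this
    exact q.empty_notMem this
  · exact ⟨_, _, sub_cone m n r 0, h⟩

theorem tot_good (hC : Cones ⊆ A) (hI : ∀ a ∈ A, Lin a ∧ Thick a) (hG : Guessing A)
    {ρ : Set Pt → ℝ} (h : Add A ρ) (hb : Bdd A ρ) {b : Set Pt} (hbA : b ∈ A) :
    ∃ c ∈ A, c ⊆ b ∧ |ρ c - ρ b| ≤ 1 ∧ ∀ m, Good m c := by
  have key : ∀ (M : ℕ) (ε : ℝ), 0 < ε → ∃ c ∈ A, c ⊆ b ∧ |ρ c - ρ b| ≤ ε ∧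
      (∀ m, m < M → Good m c) ∧ ∀ m, M ≤ m → ∀ k, phi m k c = phi m k b := by
    intro M
    induction M with
    | zero => exact fun ε hε => ⟨b, hbA, subset_rfl, by simpa using hε.le, by simp, by simp⟩
    | succ M ih =>
      intro ε hε
      obtain ⟨c, c1, c2, c3, c4, c5⟩ := ih (ε / 2) (by linarith)
      by_cases hne : (c ∩ piece M).Nonempty
      · obtain ⟨p, hp⟩ := hne
        obtain ⟨a, a1, a2, a3⟩ := small h hb (pure p) (ε := ε / 2) (by linarith)
        obtain ⟨m, n, r, h1⟩ := (hI _ (inf_mem a1 (inf_mem c1 (hC (cone_mem M 0 0))))).2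
          ⟨p, Ultrafilter.mem_pure.1 a2, hp⟩
        have hm : m = M := mem_piece.1 (h1 (self_mem_cone _ _ _)).2.2
        subst hm
        obtain ⟨n', r', h2, h3⟩ := subcone_not (pure p) m n r
        obtain ⟨d, d1, d2, d3⟩ := corr hC hI hG c1 m n' r'
        have d4 : d ⊆ c := fun x hx => (h1 (h2 (d2 hx))).2.1
        have d5 : |ρ d| ≤ ε / 2 := a3 d d1 (fun x hx => (h1 (h2 (d2 hx))).1)
          (fun h4 => h3 (mem_of_superset h4 d2))
        have d6 : ∀ m', m' ≠ m → ∀ k, phi m' k (c \ d) = phi m' k c := fun m' hm' k => by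
          rw [phi_sdiff m' k d4, good_off (d2.trans (cone_piece _ _ _)) hm', sub_zero]
        refine ⟨c \ d, sdiff_mem c1 d1, diff_subset.trans c2, ?_, fun m' hm' => ?_,
          fun m' hm' k => ?_⟩
        · rw [h.sdiff c1 d1 d4]
          rw [abs_le] at c3 d5 ⊢
          constructor <;> linarith [c3.1, c3.2, d5.1, d5.2]
        · rcases (Nat.lt_succ_iff.1 hm').lt_or_eq with h4 | h4
          · filter_upwards [c4 m' h4] with k hk
            rw [d6 m' h4.ne, hk]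
          · subst h4
            filter_upwards [d3] with k hk
            rw [phi_sdiff m' k d4, hk, sub_self]
        · rw [d6 m' (by omega), c5 m' (by omega)]
      · refine ⟨c, c1, c2, c3.trans (by linarith), fun m' hm' => ?_,
          fun m' hm' k => c5 m' (by omega) k⟩
        rcases (Nat.lt_succ_iff.1 hm').lt_or_eq with h4 | h4
        · exact c4 m' h4
        · subst h4
          refine Eventually.of_forall fun k => ?_
          rw [← phi_empty m' k]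
          exact phi_congr fun y _ _ => ⟨fun h5 => hne ⟨_, h5, mem_piece.2 rfl⟩, fun h5 => h5.elim⟩
  obtain ⟨M, hM⟩ := eventually_atTop.1 (hI b hbA).1.1
  obtain ⟨c, c1, c2, c3, c4, c5⟩ := key M 1 one_pos
  refine ⟨c, c1, c2, c3, fun m => ?_⟩
  rcases lt_or_ge m M with h1 | h1
  · exact c4 m h1
  · filter_upwards [hM m h1] with k hk
    rw [c5 m h1, hk]

end Pool.Agent.H273Z.Nik
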