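import Mathlib
import Pool.Agent.Helper292.ForceCH

set_option autoImplicit false

namespace Pool.Agent.H273Z.Nik

open Pool.Agent.Helper292.ForceCH (Om)

/-- `C` is a closed unbounded subset of `ω₁` (the sentence named by `IsClubName`). -/
def IsClub (C : Set Om) : Prop :=
  (∀ a : Om, ∃ b : Om, a < b ∧ b ∈ C) ∧
    ∀ a : Om, (∃ b, b < a) → (∀ b : Om, b < a → ∃ c : Om, (b < c ∧ c < a) ∧ c ∈ C) → a ∈ C

/-- Jensen's diamond principle (the sentence which `DiamondHolds` says is forced). -/
def Diamond : Prop :=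
  ∃ A : Om → Set Om, ∀ S C : Set Om, IsClub C →
    ∃ a ∈ C, ∀ b : Om, b < a → (b ∈ S ↔ b ∈ A a)

section

variable {B : Type} [BooleanAlgebra B]

/-- `K` bounds the total variation of `μ`: the sum of the `|μ a|` over any finite partition of
the unit into pairwise disjoint elements is at most `K`. -/
def VarLe (μ : B → ℝ) (K : ℝ) : Prop :=
  ∀ s : Finset B, (s : Set B).PairwiseDisjoint id → s.sup id = ⊤ → ∑ a ∈ s, |μ a| ≤ K

/-- A measure: a finitely additive real function of bounded variation. -/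
def IsMeasure (μ : B → ℝ) : Prop :=
  (∀ a b : B, Disjoint a b → μ (a ⊔ b) = μ a + μ b) ∧ ∃ K, VarLe μ K

/-- Every sequence of measures which is pointwise bounded on `D` is bounded in norm. -/
def NikodymSet (D : Set B) : Prop :=
  ∀ μ : ℕ → B → ℝ, (∀ n, IsMeasure (μ n)) → (∀ a ∈ D, ∃ K : ℝ, ∀ n, |μ n a| ≤ K) →
    ∃ K : ℝ, ∀ n, VarLe (μ n) K

/-- `D` is a minimal extension of `C`. -/
def MinExt (C D : BooleanSubalgebra B) : Prop :=
  C < D ∧ ¬ ∃ E : BooleanSubalgebra B, C < E ∧ E < D

variable (B)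

/-- The Nikodym property. -/
def Nikodym : Prop := NikodymSet (Set.univ : Set B)

/-- The strong Nikodym property. -/
def StrongNikodym : Prop :=
  ∀ D : ℕ → Set B, Monotone D → (⋃ n, D n) = Set.univ → ∃ n, NikodymSet (D n)

/-- Minimally generated Boolean algebras: the union of a continuous chain of subalgebras,
indexed by the ordinals below `δ`, starting from `{0, 1}`, with minimal extensions at the
successor steps. -/
def MinGen : Prop :=
  ∃ (δ : Ordinal.{0}) (A : Ordinal.{0} → BooleanSubalgebra B),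
    (∀ α β, α ≤ β → β < δ → A α ≤ A β) ∧
    (A 0 : Set B) = {⊥, ⊤} ∧
    (∀ l, l < δ → Order.IsSuccLimit l → (A l : Set B) = ⋃ α < l, (A α : Set B)) ∧
    (∀ α, α + 1 < δ → MinExt (A α) (A (α + 1))) ∧
    (⋃ α < δ, (A α : Set B)) = Set.univ

end

end Pool.Agent.H273Z.Nik
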