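import Pool.Agent.H273Z.Nik.Step

set_option autoImplicit false
set_option linter.all false
set_option maxHeartbeats 400000

namespace Pool.Agent.H273Z.Nik

open Set BooleanSubalgebra Filter Cardinal
open Pool.Agent.Helper292

open Pool.Agent.Helper292.ForceCH (Om)

lemma om_bdd (S : Set Om) (hS : S.Countable) : ∃ α, ∀ β ∈ S, β < α := by
  rcases S.eq_empty_or_nonempty with h | h
  · exact ⟨Classical.arbitrary Om, by simp [h]⟩
  · obtain ⟨f, hf⟩ := hS.exists_eq_range h
    obtain ⟨a, ha⟩ := ForceCH.exists_bound f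
    refine ⟨a, fun β hβ => ?_⟩
    rw [hf] at hβ
    obtain ⟨n, rfl⟩ := hβ
    exact ha n

lemma om_cnt (α : Om) : (Iio α).Countable :=
  Set.countable_coe_iff.1 (ForceCH.countable_Iio α)

lemma om_cnt' (α : Om) : (Iic α).Countable :=
  ((om_cnt α).union (countable_singleton α)).mono (fun β hβ => by
    rcases (show β ≤ α from hβ).lt_or_eq with h | h
    · exact Or.inl h
    · exact Or.inr h)

lemma club_fun (G : Om → Om) (β0 : Om) :
    IsClub {δ | β0 < δ ∧ ∀ α, α < δ → G α < δ} := by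
  constructor
  · intro a
    have hnext : ∀ c : Om, ∃ d, c < d ∧ ∀ α, α ≤ c → G α < d := by
      intro c
      obtain ⟨d, hd⟩ := om_bdd ({c} ∪ G '' (Iic c))
        ((countable_singleton c).union ((om_cnt' c).image _))
      exact ⟨d, hd c (Or.inl rfl), fun α hα => hd _ (Or.inr ⟨α, hα, rfl⟩)⟩
    choose nx h1 h2 using hnext
    let s : ℕ → Om := fun n => Nat.rec (max a β0) (fun _ c => nx c) n
    refine ⟨ForceCH.ub s, ?_, ?_, ?_⟩
    · exact lt_of_le_of_lt (le_max_left a β0) (ForceCH.lt_ub s 0)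
    · exact lt_of_le_of_lt (le_max_right a β0) (ForceCH.lt_ub s 0)
    · intro α hα
      obtain ⟨n, hn⟩ := ForceCH.ub_le s hα
      exact (h2 (s n) α hn).trans (ForceCH.lt_ub s (n+1))
  · rintro a ⟨b, hb⟩ h
    obtain ⟨c, ⟨h1, h2⟩, h3, h4⟩ := h b hb
    refine ⟨h3.trans h2, fun α hα => ?_⟩
    obtain ⟨c', ⟨k1, k2⟩, k3, k4⟩ := h α hα
    exact (k4 α k1).trans k2

lemma diamond_gen (h : Diamond) {W : Type} (rk : W → Om)
    (hrk : ∀ β, {w | rk w ≤ β}.Countable) :
    ∃ Z : Om → Set W, ∀ (S : Set W) (G : Om → Om) (β0 : Om), ∃ α, β0 < α ∧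
      (∀ β, β < α → G β < α) ∧ ∀ w, rk w < α → (w ∈ S ↔ w ∈ Z α) := by
  obtain ⟨A, hA⟩ := h
  have hcard : #(Om × ℕ) = #Om := by
    rw [Cardinal.mk_prod, Cardinal.lift_id, Cardinal.lift_id]
    simp
  obtain ⟨code⟩ := Cardinal.eq.1 hcard
  choose enc henc using fun β => Set.countable_iff_exists_injOn.1 (hrk β)
  let ι : W → Om := fun w => code (rk w, enc (rk w) w)
  have hι : Function.Injective ι := by
    intro w w' e
    have e1 := code.injective e
    simp only [Prod.mk.injEq] at e1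
    obtain ⟨e2, e3⟩ := e1
    rw [← e2] at e3
    exact henc (rk w) (show rk w ≤ rk w from le_rfl) (show rk w' ≤ rk w from e2.ge) e3
  refine ⟨fun α => {w | ι w ∈ A α}, fun S G β0 => ?_⟩
  have hg : ∀ β, ∃ γ, G β < γ ∧ ∀ w, rk w ≤ β → ι w < γ := by
    intro β
    obtain ⟨γ, hγ⟩ := om_bdd ({G β} ∪ ι '' {w | rk w ≤ β})
      ((countable_singleton _).union ((hrk β).image _))
    exact ⟨γ, hγ _ (Or.inl rfl), fun w hw => hγ _ (Or.inr ⟨w, hw, rfl⟩)⟩
  choose G' g1 g2 using hg
  obtain ⟨α, ⟨h1, h2⟩, h3⟩ := hA (ι '' S) _ (club_fun G' β0)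
  refine ⟨α, h1, fun β hβ => (g1 β).trans (h2 β hβ), fun w hw => ?_⟩
  rw [← hι.mem_set_image]
  exact h3 _ ((g2 _ w le_rfl).trans (h2 _ hw))

abbrev Tg : Type := ℕ × ℕ × ℕ
abbrev Cd : Type := Om × ℕ
abbrev SC : Type := Cd × Cd × Tg
abbrev St : Type := Set Pt × Set Pt × Tg

noncomputable def rkS (s : SC) : Om := max s.1.1 s.2.1.1

lemma rkS_cnt (β : Om) : {s | rkS s ≤ β}.Countable := by
  refine (((om_cnt' β).prod (countable_univ (α := ℕ))).prod
    (((om_cnt' β).prod (countable_univ (α := ℕ))).prod (countable_univ (α := Tg)))).mono ?_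
  intro s hs
  have := max_le_iff.1 (show max s.1.1 s.2.1.1 ≤ β from hs)
  exact ⟨⟨this.1, trivial⟩, ⟨this.2, trivial⟩, trivial⟩

noncomputable def rkW (w : SC × SC) : Om := max (rkS w.1) (rkS w.2)

lemma rkW_cnt (β : Om) : {w | rkW w ≤ β}.Countable := by
  refine ((rkS_cnt β).prod (rkS_cnt β)).mono ?_
  intro w hw
  exact max_le_iff.1 (show max (rkS w.1) (rkS w.2) ≤ β from hw)

def Alg (x : Om → Set Pt) (α : Om) : BooleanSubalgebra (Set Pt) := cl (Cones ∪ x '' Iio α)

lemma cl_countable {S : Set (Set Pt)} (hS : S.Countable) : (cl S : Set (Set Pt)).Countable := by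
  refine (MeasureTheory.countable_generateSetAlgebra hS).mono ?_
  intro y hy
  induction hy using closure_bot_sup_induction with
  | mem z hz => exact MeasureTheory.generateSetAlgebra.base _ hz
  | bot => exact MeasureTheory.generateSetAlgebra.empty
  | sup z _ w _ hz hw => exact MeasureTheory.generateSetAlgebra.union _ _ hz hw
  | compl z _ hz => exact MeasureTheory.generateSetAlgebra.compl _ hz

lemma cones_countable : Cones.Countable := by
  refine (countable_range fun t : Tg => cone t.1 t.2.1 t.2.2).mono ?_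
  rintro _ ⟨m, n, r, rfl⟩
  exact ⟨(m, n, r), rfl⟩

lemma alg_countable (x : Om → Set Pt) (α : Om) : (Alg x α : Set (Set Pt)).Countable :=
  cl_countable (cones_countable.union ((om_cnt α).image _))

lemma alg_mono (x : Om → Set Pt) {α β : Om} (h : α ≤ β) : Alg x α ≤ Alg x β :=
  cl_mono (union_subset_union_right _ (image_mono (Iio_subset_Iio h)))

lemma alg_congr {x y : Om → Set Pt} {α : Om} (h : ∀ β, β < α → x β = y β) :
    Alg x α = Alg y α := by
  unfold Alg
  have : x '' Iio α = y '' Iio α := image_congr fun β hβ => h β hβ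
  rw [this]

open Classical in
noncomputable def en (S : BooleanSubalgebra (Set Pt)) : ℕ → Set Pt :=
  if h : ∃ f : ℕ → Set Pt, (S : Set (Set Pt)) = range f then h.choose else fun _ => ∅

lemma en_range {S : BooleanSubalgebra (Set Pt)} (hS : (S : Set (Set Pt)).Countable) :
    (S : Set (Set Pt)) = range (en S) := by
  have h := hS.exists_eq_range ⟨⊥, bot_mem⟩
  unfold en
  rw [dif_pos h]
  exact h.choose_spec

noncomputable def dec (x : Om → Set Pt) (c : Cd) : Set Pt := en (Alg x c.1) c.2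

noncomputable def decS (x : Om → Set Pt) (s : SC) : St := (dec x s.1, dec x s.2.1, s.2.2)

def Run (Z : Om → Set (SC × SC)) (α : Om) (x : Om → Set Pt) (s : ℕ → SC) : Prop :=
  (∀ j, rkS (s j) < α) ∧ (∀ j, (s j, s (j + 1)) ∈ Z α) ∧
    Valid (Alg x α) (fun j => dec x (s j).1) (fun j => dec x (s j).2.1)

open Classical in
noncomputable def stage (Z : Om → Set (SC × SC)) (α : Om) (x : Om → Set Pt) : Set Pt :=
  if h : ∃ s, Run Z α x s then ⋃ j, dec x (h.choose j).1 else ∅

lemma exists_seq (Z : Om → Set (SC × SC)) : ∃ x : Om → Set Pt, ∀ α,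
    (x α = ∅ ∧ ¬ ∃ s, Run Z α x s) ∨ ∃ s, Run Z α x s ∧ x α = ⋃ j, dec x (s j).1 := by
  classical
  let x : Om → Set Pt := WellFounded.fix (wellFounded_lt (α := Om))
    fun α ih => stage Z α fun β => if h : β < α then ih β h else ∅
  refine ⟨x, fun α => ?_⟩
  let y : Om → Set Pt := fun β => if h : β < α then x β else ∅
  have hx : x α = stage Z α y := WellFounded.fix_eq _ _ _
  have hy : ∀ β, β ≤ α → Alg y β = Alg x β := fun β hβ =>
    alg_congr fun γ hγ => dif_pos (hγ.trans_le hβ)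
  have hd : ∀ c : Cd, c.1 < α → dec y c = dec x c := fun c hc => by
    unfold dec; rw [hy _ hc.le]
  have hr : ∀ s, Run Z α y s ↔ Run Z α x s := by
    intro s
    unfold Run
    refine and_congr_right fun h1 => and_congr_right fun _ => ?_
    have e1 : (fun j => dec y (s j).1) = fun j => dec x (s j).1 :=
      funext fun j => hd _ ((le_max_left _ _).trans_lt (h1 j))
    have e2 : (fun j => dec y (s j).2.1) = fun j => dec x (s j).2.1 :=
      funext fun j => hd _ ((le_max_right _ _).trans_lt (h1 j))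
    rw [hy α le_rfl, e1, e2]
  by_cases h : ∃ s, Run Z α y s
  · right
    refine ⟨h.choose, (hr _).1 h.choose_spec, ?_⟩
    rw [hx, stage, dif_pos h]
    exact iUnion_congr fun j => hd _ ((le_max_left _ _).trans_lt (h.choose_spec.1 j))
  · left
    refine ⟨by rw [hx, stage, dif_neg h], ?_⟩
    rintro ⟨s, hs⟩
    exact h ⟨s, (hr s).2 hs⟩

lemma mem_alg_cases {x : Om → Set Pt} {T : Set Om} {y : Set Pt} (hy : y ∈ cl (Cones ∪ x '' T)) :
    y ∈ cl Cones ∨ ∃ β ∈ T, y ∈ cl (Cones ∪ x '' Iic β) := by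
  have hm : ∀ {β γ : Om}, β ≤ γ → cl (Cones ∪ x '' Iic β) ≤ cl (Cones ∪ x '' Iic γ) :=
    fun h => cl_mono (union_subset_union_right _ (image_mono (Iic_subset_Iic.2 h)))
  have h0 : ∀ β : Om, cl Cones ≤ cl (Cones ∪ x '' Iic β) := fun β => cl_mono subset_union_left
  induction hy using closure_bot_sup_induction with
  | mem z hz =>
    rcases hz with hz | ⟨β, hβ, rfl⟩
    · exact Or.inl (sub_cl hz)
    · exact Or.inr ⟨β, hβ, sub_cl (Or.inr ⟨β, mem_Iic.2 le_rfl, rfl⟩)⟩
  | bot => exact Or.inl bot_mem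
  | sup z _ w _ hz hw =>
    rcases hz with hz | ⟨β, hβ, hz⟩ <;> rcases hw with hw | ⟨γ, hγ, hw⟩
    · exact Or.inl (sup_mem hz hw)
    · exact Or.inr ⟨γ, hγ, sup_mem (h0 _ hz) hw⟩
    · exact Or.inr ⟨β, hβ, sup_mem hz (h0 _ hw)⟩
    · rcases le_total β γ with h | h
      · exact Or.inr ⟨γ, hγ, sup_mem (hm h hz) hw⟩
      · exact Or.inr ⟨β, hβ, sup_mem hz (hm h hw)⟩
  | compl z _ hz =>
    rcases hz with hz | ⟨β, hβ, hz⟩
    · exact Or.inl (compl_mem hz)
    · exact Or.inr ⟨β, hβ, compl_mem hz⟩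

lemma cl_Iic (x : Om → Set Pt) (β : Om) :
    cl (Cones ∪ x '' Iic β) = cl (insert (x β) (Alg x β : Set (Set Pt))) := by
  unfold Alg
  rw [closure_insert_closure, ← Iio_insert, image_insert_eq, union_insert]

/-- the game property of the final algebra -/
def Guessing (A : BooleanSubalgebra (Set Pt)) : Prop :=
  ∀ (Adm : St → Prop) (R : St → St → Prop), (∃ s, Adm s) →
    (∀ s, Adm s → s.1 ∈ A ∧ s.2.1 ∈ A ∧ Disjoint s.1 s.2.1) →
    (∀ s, Adm s → ∀ e ∈ A, ∃ s', Adm s' ∧ R s s' ∧ Mono s.1 s.2.1 s'.1 s'.2.1 ∧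
      (s'.2.1 ⊆ e ∨ s'.2.1 ⊆ eᶜ)) →
    (∀ s : ℕ → St, (∀ j, Adm (s j) ∧ R (s j) (s (j + 1)) ∧
      Mono (s j).1 (s j).2.1 (s (j + 1)).1 (s (j + 1)).2.1) →
      (∀ m, ∃ j, (s j).2.1 ⊆ piece m ∨ (s j).2.1 ⊆ (piece m)ᶜ) →
      ∀ᶠ m in atTop, Good m (⋃ j, (s j).1)) →
    ∃ s : ℕ → St, (∀ j, Adm (s j) ∧ R (s j) (s (j + 1)) ∧
      Mono (s j).1 (s j).2.1 (s (j + 1)).1 (s (j + 1)).2.1) ∧ (⋃ j, (s j).1) ∈ A

theorem exists_alg (h : Diamond) : ∃ A : BooleanSubalgebra (Set Pt),
    MinGen A ∧ Cones ⊆ A ∧ (∀ a ∈ A, Lin a ∧ Thick a) ∧ Guessing A := by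
  classical
  obtain ⟨Z, hZ⟩ := diamond_gen h rkW rkW_cnt
  obtain ⟨x, hx⟩ := exists_seq Z
  have hC : ∀ α, Cones ⊆ Alg x α := fun α => subset_union_left.trans sub_cl
  have hinv : ∀ α, ∀ y ∈ Alg x α, Lin y ∧ Thick y := by
    intro α
    induction α using WellFoundedLT.induction with
    | _ α ih =>
      intro y hy
      rcases mem_alg_cases hy with h1 | ⟨β, hβ, h1⟩
      · exact inv_base h1
      · rw [cl_Iic] at h1
        rcases hx β with ⟨h2, -⟩ | ⟨s, hs, h2⟩
        · apply ih β hβ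
          refine (closure_le.2 ?_) h1
          rw [h2]
          exact insert_subset bot_mem subset_rfl
        · rw [h2] at h1
          exact hs.2.2.step (hC β) (ih β hβ) h1
  have hall : ∀ y ∈ cl (Cones ∪ x '' univ), ∃ α, y ∈ Alg x α := by
    intro y hy
    rcases mem_alg_cases hy with h1 | ⟨β, -, h1⟩
    · exact ⟨Classical.arbitrary Om, cl_mono subset_union_left h1⟩
    · obtain ⟨γ, hγ⟩ := exists_gt β
      exact ⟨γ, cl_mono (union_subset_union_right _ (image_mono (Iic_subset_Iio.2 hγ))) h1⟩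
  have hsub : ∀ α, Alg x α ≤ cl (Cones ∪ x '' univ) := fun α =>
    cl_mono (union_subset_union_right _ (image_mono (subset_univ _)))
  refine ⟨cl (Cones ∪ x '' univ), ?_, subset_union_left.trans sub_cl, ?_, ?_⟩
  · let z : ℕ ×ₗ ℕ → Set Pt := fun i =>
      cone (ofLex i).2.unpair.1 (ofLex i).1 (ofLex i).2.unpair.2
    have hz : range z = Cones := by
      apply subset_antisymm
      · rintro _ ⟨i, rfl⟩
        exact cone_mem _ _ _
      · rintro _ ⟨m, n, r, rfl⟩
        exact ⟨toLex (n, Nat.pair m r), by simp [z]⟩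
    let g : (ℕ ×ₗ ℕ) ⊕ₗ Om → Set Pt := fun i => Sum.elim z x (ofLex i)
    have hg : range g = Cones ∪ x '' univ := by
      rw [← hz, image_univ, ← Sum.elim_range]
      exact (EquivLike.surjective ofLex).range_comp (Sum.elim z x)
    rw [← hg]
    haveI : WellFoundedLT ((ℕ ×ₗ ℕ) ⊕ₗ Om) := ⟨Sum.lex_wf wellFounded_lt wellFounded_lt⟩
    apply minGen_closure
    rintro (i | α) a ha
    · have key : ∀ a ∈ cl (g '' Iio (toLex (Sum.inl i))), z i ⊆ a ∨ z i ⊆ aᶜ := by
        intro a ha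
        induction ha using closure_bot_sup_induction with
        | mem w hw =>
          obtain ⟨(i' | β), hi', rfl⟩ := hw
          · have h1 : i' < i := Sum.Lex.inl_lt_inl_iff.1 hi'
            have h2 : (ofLex i').1 ≤ (ofLex i).1 := by
              rcases Prod.Lex.lt_iff.1 h1 with h3 | h3
              · exact h3.le
              · exact h3.1.le
            by_cases h3 : ((ofLex i).2.unpair.1, (ofLex i).2.unpair.2) ∈ z i'
            · left
              rintro p ⟨k1, k2⟩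
              exact ⟨k1.trans h3.1, (mod_pow_of_le h2 k2).trans h3.2⟩
            · right
              rintro p ⟨k1, k2⟩ ⟨k3, k4⟩
              exact h3 ⟨k1.symm.trans k3, (mod_pow_of_le h2 k2).symm.trans k4⟩
          · exact absurd hi' Sum.Lex.not_inr_lt_inl
        | bot => exact Or.inr (by simp)
        | sup u _ w _ hu hw =>
          rcases hu with hu | hu
          · exact Or.inl (hu.trans subset_union_left)
          · rcases hw with hw | hw
            · exact Or.inl (hw.trans subset_union_right)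
            · exact Or.inr fun p hp => not_or.2 ⟨hu hp, hw hp⟩
        | compl u _ hu =>
          rcases hu with hu | hu
          · exact Or.inr (by rwa [compl_compl])
          · exact Or.inl hu
      rcases key a ha with h1 | h1
      · right
        have : aᶜ ⊓ z i = ⊥ := eq_empty_of_forall_notMem fun p hp => hp.1 (h1 hp.2)
        show aᶜ ⊓ z i ∈ _
        rw [this]; exact bot_mem
      · left
        have : a ⊓ z i = ⊥ := eq_empty_of_forall_notMem fun p hp => h1 hp.2 hp.1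
        show a ⊓ z i ∈ _
        rw [this]; exact bot_mem
    · have e : g '' Iio (toLex (Sum.inr α)) = Cones ∪ x '' Iio α := by
        apply subset_antisymm
        · rintro _ ⟨(i' | β), hi', rfl⟩
          · exact Or.inl (cone_mem _ _ _)
          · exact Or.inr ⟨β, Sum.Lex.inr_lt_inr_iff.1 hi', rfl⟩
        · rintro w (hw | ⟨β, hβ, rfl⟩)
          · rw [← hz] at hw
            obtain ⟨i, rfl⟩ := hw
            exact ⟨toLex (Sum.inl i), Sum.Lex.inl_lt_inr _ _, rfl⟩
          · exact ⟨toLex (Sum.inr β), Sum.Lex.inr_lt_inr_iff.2 hβ, rfl⟩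
      change a ∈ cl (g '' Iio (toLex (Sum.inr α))) at ha
      change a ⊓ x α ∈ cl (g '' Iio (toLex (Sum.inr α))) ∨
        aᶜ ⊓ x α ∈ cl (g '' Iio (toLex (Sum.inr α)))
      rw [e] at ha ⊢
      rcases hx α with ⟨h2, -⟩ | ⟨s, hs, h2⟩
      · left
        rw [h2]
        have : a ⊓ ∅ = ⊥ := inter_empty a
        rw [this]; exact bot_mem
      · rw [h2]
        exact hs.2.2.crit a ha
  · intro a ha
    obtain ⟨α, hα⟩ := hall a ha
    exact hinv α a hα
  · intro Adm R h0 h1 h2 h3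
    have hcode : ∀ α, ∀ y ∈ Alg x α, ∃ n, dec x (α, n) = y := by
      intro α y hy
      have : y ∈ range (en (Alg x α)) := by
        rw [← en_range (alg_countable x α)]; exact hy
      exact this
    have hdec : ∀ c : Cd, dec x c ∈ Alg x c.1 := by
      intro c
      have : dec x c ∈ range (en (Alg x c.1)) := ⟨c.2, rfl⟩
      rw [← en_range (alg_countable x c.1)] at this
      exact this
    have hcodeS : ∀ s, Adm s → ∃ c, decS x c = s := by
      intro s hs
      obtain ⟨α, hα⟩ := hall _ (h1 s hs).1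
      obtain ⟨β, hβ⟩ := hall _ (h1 s hs).2.1
      obtain ⟨n, hn⟩ := hcode α _ hα
      obtain ⟨k, hk⟩ := hcode β _ hβ
      exact ⟨((α, n), (β, k), s.2.2), by simp [decS, hn, hk]⟩
    let S : Set (SC × SC) := {w | Adm (decS x w.1) ∧ R (decS x w.1) (decS x w.2) ∧
      Mono (decS x w.1).1 (decS x w.1).2.1 (decS x w.2).1 (decS x w.2).2.1}
    have hnext : ∀ (c : SC) (e : Cd), ∃ c' : SC, Adm (decS x c) → Adm (decS x c') ∧
        (c, c') ∈ S ∧ ((decS x c').2.1 ⊆ dec x e ∨ (decS x c').2.1 ⊆ (dec x e)ᶜ) := by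
      intro c e
      by_cases hc : Adm (decS x c)
      · obtain ⟨s', k1, k2, k3, k4⟩ := h2 _ hc (dec x e) (hsub _ (hdec e))
        obtain ⟨c', rfl⟩ := hcodeS s' k1
        exact ⟨c', fun _ => ⟨k1, ⟨hc, k2, k3⟩, k4⟩⟩
      · exact ⟨c, fun h => absurd h hc⟩
    choose nx hnx using hnext
    have hG : ∀ β : Om, ∃ γ, β < γ ∧ ∀ (c : SC) (e : Cd), rkS c ≤ β → e.1 ≤ β →
        rkS (nx c e) < γ := by
      intro β
      obtain ⟨γ, hγ⟩ := om_bdd ({β} ∪ (fun p : SC × Cd => rkS (nx p.1 p.2)) ''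
        ({s | rkS s ≤ β} ×ˢ (Iic β ×ˢ (univ : Set ℕ))))
        ((countable_singleton _).union
          (((rkS_cnt β).prod ((om_cnt' β).prod countable_univ)).image _))
      exact ⟨γ, hγ _ (Or.inl rfl), fun c e k1 k2 => hγ _ (Or.inr ⟨(c, e), ⟨k1, k2, trivial⟩, rfl⟩)⟩
    choose G g1 g2 using hG
    obtain ⟨s0, hs0⟩ := h0
    obtain ⟨c0, rfl⟩ := hcodeS s0 hs0
    obtain ⟨α, a1, a2, a3⟩ := hZ S G (rkS c0)
    have hex : ∃ s, Run Z α x s := by
      obtain ⟨e, he⟩ := ((om_cnt α).prod (countable_univ (α := ℕ))).exists_eq_range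
        ⟨(rkS c0, 0), a1, trivial⟩
      have he1 : ∀ j, (e j).1 < α := fun j => by
        have : e j ∈ Iio α ×ˢ (univ : Set ℕ) := by rw [he]; exact ⟨j, rfl⟩
        exact this.1
      let s : ℕ → SC := fun j => Nat.rec c0 (fun j c => nx c (e j)) j
      have hs : ∀ j, s (j + 1) = nx (s j) (e j) := fun j => rfl
      have k1 : ∀ j, rkS (s j) < α ∧ Adm (decS x (s j)) := by
        intro j
        induction j with
        | zero => exact ⟨a1, hs0⟩
        | succ j ih =>
          rw [hs]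
          refine ⟨?_, (hnx _ _ ih.2).1⟩
          exact (g2 (max (rkS (s j)) (e j).1) _ _ (le_max_left _ _) (le_max_right _ _)).trans
            (a2 _ (max_lt ih.1 (he1 j)))
      have k2 : ∀ j, (s j, s (j + 1)) ∈ S := fun j => (hnx _ _ (k1 j).2).2.1
      have k3 : ∀ y ∈ Alg x α, ∃ j, dec x (s j).2.1 ⊆ y ∨ dec x (s j).2.1 ⊆ yᶜ := by
        intro y hy
        have k4 : ∃ β, β < α ∧ y ∈ Alg x β := by
          rcases mem_alg_cases hy with k5 | ⟨β, hβ, k5⟩
          · exact ⟨rkS c0, a1, cl_mono subset_union_left k5⟩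
          · exact ⟨G β, a2 β hβ,
              cl_mono (union_subset_union_right _ (image_mono (Iic_subset_Iio.2 (g1 β)))) k5⟩
        obtain ⟨β, hβ, k5⟩ := k4
        obtain ⟨n, rfl⟩ := hcode β y k5
        have : (β, n) ∈ range e := by rw [← he]; exact ⟨hβ, trivial⟩
        obtain ⟨j, hj⟩ := this
        rw [← hj]
        exact ⟨j + 1, (hnx _ _ (k1 j).2).2.2⟩
      refine ⟨s, fun j => (k1 j).1, fun j => ?_, ?_⟩
      · exact (a3 (s j, s (j + 1)) (max_lt (k1 j).1 (k1 (j + 1)).1)).1 (k2 j)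
      · refine ⟨fun j => ?_, fun j => ?_, fun j => (h1 _ (k1 j).2).2.2, fun j => (k2 j).2.2,
          k3, ?_⟩
        · exact alg_mono x ((le_max_left _ _).trans (k1 j).1.le) (hdec _)
        · exact alg_mono x ((le_max_right _ _).trans (k1 j).1.le) (hdec _)
        · exact h3 (fun j => decS x (s j)) k2 fun m => k3 _ (hC α (cone_mem _ _ _))
    rcases hx α with ⟨-, h4⟩ | ⟨s, hs, h4⟩
    · exact absurd hex h4
    · refine ⟨fun j => decS x (s j), fun j => ?_, ?_⟩
      · have k : (s j, s (j + 1)) ∈ S :=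
          (a3 (s j, s (j + 1)) (max_lt (hs.1 j) (hs.1 (j + 1)))).2 (hs.2.1 j)
        exact k
      · show (⋃ j, dec x (s j).1) ∈ _
        rw [← h4]
        exact sub_cl (Or.inr ⟨α, trivial, rfl⟩)

end Pool.Agent.H273Z.Nik
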