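import Pool.Agent.H273Z.Nik.Defs

set_option autoImplicit false
set_option linter.all false

namespace Pool.Agent.H273Z.Nik

open Set BooleanSubalgebra

section

variable {B : Type} [BooleanAlgebra B]

abbrev cl (S : Set B) : BooleanSubalgebra B := BooleanSubalgebra.closure S

lemma cl_mono {S T : Set B} (h : S ⊆ T) : cl S ≤ cl T := BooleanSubalgebra.closure_mono h

lemma sub_cl {S : Set B} : S ⊆ cl S := BooleanSubalgebra.subset_closure

lemma mem_closure_insert (C : BooleanSubalgebra B) (x : B) {y : B}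
    (hy : y ∈ cl (insert x (C : Set B))) :
    ∃ b ∈ C, ∃ b' ∈ C, y = (b ⊓ x) ⊔ (b' ⊓ xᶜ) := by
  induction hy using closure_bot_sup_induction with
  | mem z hz =>
    rcases hz with rfl | hz
    · exact ⟨⊤, top_mem, ⊥, bot_mem, by simp⟩
    · exact ⟨z, hz, z, hz, by rw [← inf_sup_left]; simp⟩
  | bot => exact ⟨⊥, bot_mem, ⊥, bot_mem, by simp⟩
  | sup z _ w _ hz hw =>
    obtain ⟨b, hb, b', hb', rfl⟩ := hz
    obtain ⟨c, hc, c', hc', rfl⟩ := hw
    refine ⟨b ⊔ c, sup_mem hb hc, b' ⊔ c', sup_mem hb' hc', ?_⟩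
    rw [inf_sup_right, inf_sup_right]
    ac_rfl
  | compl z _ hz =>
    obtain ⟨b, hb, b', hb', rfl⟩ := hz
    refine ⟨bᶜ, compl_mem hb, b'ᶜ, compl_mem hb', ?_⟩
    apply compl_unique
    · rw [inf_sup_right, inf_sup_left, inf_sup_left]
      have h1 : b ⊓ x ⊓ (bᶜ ⊓ x) = ⊥ := by
        rw [inf_inf_inf_comm]; simp
      have h2 : b ⊓ x ⊓ (b'ᶜ ⊓ xᶜ) = ⊥ := by
        rw [inf_inf_inf_comm]; simp
      have h3 : b' ⊓ xᶜ ⊓ (bᶜ ⊓ x) = ⊥ := by
        rw [inf_inf_inf_comm]; simp
      have h4 : b' ⊓ xᶜ ⊓ (b'ᶜ ⊓ xᶜ) = ⊥ := by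
        rw [inf_inf_inf_comm]; simp
      rw [h1, h2, h3, h4]; simp
    · rw [sup_sup_sup_comm, ← inf_sup_right, ← inf_sup_right]; simp

/-- the criterion for a simple extension to have nothing in between -/
lemma between (C D : BooleanSubalgebra B) (x : B)
    (h : ∀ a ∈ C, a ⊓ x ∈ C ∨ aᶜ ⊓ x ∈ C) (hCD : C < D)
    (hD : D ≤ cl (insert x (C : Set B))) : x ∈ D := by
  obtain ⟨y, hyD, hyC⟩ := SetLike.exists_of_lt hCD
  obtain ⟨b, hb, b', hb', rfl⟩ := mem_closure_insert C x (hD hyD)
  have he : symmDiff b b' ∈ C := by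
    rw [symmDiff_def]; exact sup_mem (sdiff_mem hb hb') (sdiff_mem hb' hb)
  have key : symmDiff (b ⊓ x ⊔ b' ⊓ xᶜ) b' = symmDiff b b' ⊓ x := by
    have h1 : b' = b' ⊓ x ⊔ b' ⊓ xᶜ := by rw [← inf_sup_left]; simp
    have hx : ∀ u v : B, u ⊓ x = v ⊓ x → u ⊓ xᶜ = v ⊓ xᶜ → u = v := by
      intro u v h1 h2
      rw [← inf_top_eq u, ← inf_top_eq v, ← sup_compl_eq_top (x := x), inf_sup_left,
        inf_sup_left, h1, h2]
    apply hx
    · rw [inf_symmDiff_distrib_right, inf_sup_right, inf_assoc b', compl_inf_self, inf_assoc,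
        inf_assoc, inf_idem, inf_symmDiff_distrib_right]
      simp
    · rw [inf_symmDiff_distrib_right, inf_sup_right, inf_assoc b, inf_compl_self, inf_assoc,
        inf_assoc, inf_idem]
      simp
  have h1 : symmDiff b b' ⊓ x ∈ D := by
    rw [← key, symmDiff_def]
    exact sup_mem (sdiff_mem hyD (hCD.le hb')) (sdiff_mem (hCD.le hb') hyD)
  have h2 : symmDiff b b' ⊓ x ∉ C := by
    intro h2
    apply hyC
    have : b ⊓ x ⊔ b' ⊓ xᶜ = symmDiff (symmDiff b b' ⊓ x) b' := by
      rw [← key]; simp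
    rw [this, symmDiff_def]
    exact sup_mem (sdiff_mem h2 hb') (sdiff_mem hb' h2)
  have h3 := (h _ he).resolve_left h2
  have : x = symmDiff b b' ⊓ x ⊔ (symmDiff b b')ᶜ ⊓ x := by
    rw [← inf_sup_right, sup_compl_eq_top, top_inf_eq]
  rw [this]
  exact sup_mem h1 (hCD.le h3)

lemma closure_insert_closure (x : B) (S : Set B) :
    cl (insert x (cl S : Set B)) = cl (insert x S) := by
  apply le_antisymm
  · rw [closure_le]
    rintro y (rfl | hy)
    · exact sub_cl (Or.inl rfl)
    · exact cl_mono (subset_insert _ _) hy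
  · exact cl_mono (insert_subset_insert sub_cl)

/-- A well-ordered sequence of generators, each splitting at most one point of the Stone space
of the algebra generated by the earlier ones, generates a minimally generated algebra. -/
theorem minGen_of_gen {I : Type} [LinearOrder I] [WellFoundedLT I] (x : I → B)
    (htop : cl (range x) = ⊤)
    (hx : ∀ i, ∀ a ∈ cl (x '' Iio i), a ⊓ x i ∈ cl (x '' Iio i) ∨
      aᶜ ⊓ x i ∈ cl (x '' Iio i)) : MinGen B := by
  classical
  let J : Type := {i : I // x i ∉ cl (x '' Iio i)}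
  have hJ : ∀ i, x i ∈ cl ((fun j : J => x j.1) '' {j : J | j.1 ≤ i}) := by
    intro i
    induction i using WellFoundedLT.induction with
    | _ i ih =>
      by_cases hi : x i ∈ cl (x '' Iio i)
      · refine (closure_le.2 ?_) hi
        rintro _ ⟨k, hk, rfl⟩
        exact cl_mono (image_mono fun (j : J) (hj : j.1 ≤ k) => hj.trans (le_of_lt hk)) (ih k hk)
      · exact sub_cl ⟨⟨i, hi⟩, le_rfl, rfl⟩
  have hJ2 : ∀ j : J, cl ((fun j : J => x j.1) '' Iio j) = cl (x '' Iio j.1) := by
    intro j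
    apply le_antisymm
    · apply cl_mono
      rintro _ ⟨k, hk, rfl⟩
      exact ⟨k.1, hk, rfl⟩
    · rw [closure_le]
      rintro _ ⟨k, hk, rfl⟩
      exact cl_mono (image_mono fun (l : J) (hl : l.1 ≤ k) => lt_of_le_of_lt hl hk) (hJ k)
  let t : J → Ordinal.{0} := Ordinal.typein (α := J) (· < ·)
  have ht : ∀ a b : J, t a < t b ↔ a < b := fun a b => Ordinal.typein_lt_typein _
  let A : Ordinal.{0} → BooleanSubalgebra B := fun α =>
    cl ((fun j : J => x j.1) '' {j : J | t j < α})
  have hmono : ∀ α β, α ≤ β → A α ≤ A β := fun α β h =>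
    cl_mono (image_mono fun j (hj : t j < α) => lt_of_lt_of_le hj h)
  refine ⟨Ordinal.type (α := J) (· < ·) + 1, A, fun α β h _ => hmono α β h, ?_, ?_, ?_, ?_⟩
  · have : A 0 = ⊥ := by
      apply le_antisymm _ bot_le
      rw [closure_le]
      rintro _ ⟨k, hk, rfl⟩
      exact absurd hk (by simp)
    rw [this]; rfl
  · intro l _ hl
    apply subset_antisymm
    · intro y hy
      simp only [mem_iUnion, SetLike.mem_coe, exists_prop]
      induction hy using closure_bot_sup_induction with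
      | mem z hz =>
        obtain ⟨k, hk, rfl⟩ := hz
        exact ⟨t k + 1, hl.succ_lt hk, sub_cl ⟨k, lt_add_one (t k), rfl⟩⟩
      | bot => exact ⟨0, hl.bot_lt, bot_mem⟩
      | sup z _ w _ hz hw =>
        obtain ⟨a, ha, hz⟩ := hz
        obtain ⟨b, hb, hw⟩ := hw
        exact ⟨max a b, max_lt ha hb, sup_mem (hmono _ _ (le_max_left _ _) hz)
          (hmono _ _ (le_max_right _ _) hw)⟩
      | compl z _ hz =>
        obtain ⟨a, ha, hz⟩ := hz
        exact ⟨a, ha, compl_mem hz⟩
    · exact iUnion₂_subset fun α hα => hmono α l hα.le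
  · intro α hα
    have hα' : α < Ordinal.type (α := J) (· < ·) := lt_of_add_lt_add_right hα
    obtain ⟨j, hj⟩ := Ordinal.typein_surj (α := J) (· < ·) hα'
    have hj' : t j = α := hj
    have e1 : A α = cl (x '' Iio j.1) := by
      rw [← hJ2]
      show cl _ = cl _
      congr 2
      ext k
      rw [← hj']
      exact ht k j
    have e2 : A (α + 1) = cl (insert (x j.1) (A α : Set B)) := by
      rw [closure_insert_closure]
      show cl _ = cl _
      congr 1
      rw [← image_insert_eq (f := fun j : J => x j.1)]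
      congr 1
      ext k
      simp only [mem_setOf_eq, mem_insert_iff]
      rw [← hj', Ordinal.add_one_eq_succ, Order.lt_succ_iff, le_iff_eq_or_lt]
      constructor
      · rintro (h | h)
        · exact Or.inl ((Ordinal.typein (α := J) (· < ·)).injective h)
        · exact Or.inr h
      · rintro (h | h)
        · exact Or.inl (by rw [h])
        · exact Or.inr h
    have hxj : x j.1 ∈ A (α + 1) := by
      rw [e2]; exact sub_cl (Or.inl rfl)
    refine ⟨lt_of_le_of_ne (hmono _ _ (le_of_lt (lt_add_one α))) ?_, ?_⟩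
    · intro h
      apply j.2
      rw [← e1, h]
      exact hxj
    · rintro ⟨E, h1, h2⟩
      have h3 : x j.1 ∈ E := between (A α) E (x j.1) (by rw [e1]; exact hx j.1) h1 (e2 ▸ h2.le)
      apply absurd h2 (not_lt_of_ge _)
      rw [e2, closure_le]
      exact insert_subset h3 h1.le
  · apply eq_univ_of_forall
    intro y
    simp only [mem_iUnion, SetLike.mem_coe, exists_prop]
    refine ⟨_, lt_add_one _, ?_⟩
    have hy : y ∈ cl (range x) := by rw [htop]; trivial
    refine (closure_le.2 ?_) hy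
    rintro _ ⟨i, rfl⟩
    exact cl_mono (image_mono fun j _ => Ordinal.typein_lt_type _ j) (hJ i)

lemma mem_closure_sub (A : BooleanSubalgebra B) (S : Set A) (y : A) :
    y ∈ cl S ↔ y.1 ∈ cl (Subtype.val '' S) := by
  constructor
  · intro hy
    induction hy using closure_bot_sup_induction with
    | mem z hz => exact sub_cl ⟨z, hz, rfl⟩
    | bot => exact bot_mem
    | sup z _ w _ hz hw => exact sup_mem hz hw
    | compl z _ hz => exact compl_mem hz
  · intro hy
    have key : ∀ u ∈ cl (Subtype.val '' S), ∃ v : A, v.1 = u ∧ v ∈ cl S := by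
      intro u hu
      induction hu using closure_bot_sup_induction with
      | mem z hz =>
        obtain ⟨v, hv, rfl⟩ := hz
        exact ⟨v, rfl, sub_cl hv⟩
      | bot => exact ⟨⊥, rfl, bot_mem⟩
      | sup z _ w _ hz hw =>
        obtain ⟨v, rfl, hv⟩ := hz
        obtain ⟨v', rfl, hv'⟩ := hw
        exact ⟨v ⊔ v', rfl, sup_mem hv hv'⟩
      | compl z _ hz =>
        obtain ⟨v, rfl, hv⟩ := hz
        exact ⟨vᶜ, rfl, compl_mem hv⟩
    obtain ⟨v, hv, hv'⟩ := key _ hy
    rwa [← Subtype.ext hv]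

theorem minGen_closure {I : Type} [LinearOrder I] [WellFoundedLT I] (x : I → B)
    (hx : ∀ i, ∀ a ∈ cl (x '' Iio i), a ⊓ x i ∈ cl (x '' Iio i) ∨
      aᶜ ⊓ x i ∈ cl (x '' Iio i)) : MinGen (cl (range x) : BooleanSubalgebra B) := by
  let x' : I → (cl (range x) : BooleanSubalgebra B) :=
    fun i => ⟨x i, sub_cl ⟨i, rfl⟩⟩
  apply minGen_of_gen x'
  · rw [eq_top_iff]
    intro y _
    rw [mem_closure_sub, ← range_comp]
    exact y.2
  · intro i a ha
    rw [mem_closure_sub, ← image_comp] at ha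
    rw [mem_closure_sub, mem_closure_sub, ← image_comp]
    exact hx i a ha

end

end Pool.Agent.H273Z.Nik
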