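import Pool.Agent.H273Z.Nik.Corr

set_option autoImplicit false
set_option linter.all false
set_option maxHeartbeats 400000

namespace Pool.Agent.H273Z.Nik

open Set BooleanSubalgebra Filter

variable {A : BooleanSubalgebra (Set Pt)}

def Fam (ν : ℕ → Set Pt → ℝ) (ρ : Set Pt → ℝ) : Prop :=
  ∃ k k' c, |c| ≤ 1 ∧ ρ = fun a => ν k a - c * ν k' a

lemma key_claim {ν : ℕ → Set Pt → ℝ} (h1 : ∀ k, Add A (ν k)) (h2 : ∀ k, Bdd A (ν k))
    (h3 : ∀ a ∈ A, ∃ S, ∀ k, |ν k a| ≤ S) (q : Ultrafilter Pt)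
    (hq : ∀ a ∈ A, a ∈ q → ∀ K, ∃ k, ∃ b ∈ A, b ⊆ a ∧ K < |ν k b|) :
    ∃ T : ℝ, ∀ U ∈ A, U ∈ q → ∀ M : ℝ, ∃ ρ, Fam ν ρ ∧ ∃ b ∈ A, b ⊆ U ∧ b ∉ q ∧ M ≤ |ρ b| ∧
      ∃ a ∈ A, a ∈ q ∧ ∀ b' ∈ A, b' ⊆ a → |ρ b'| ≤ T := by
  choose a a1 a2 a3 using fun k => small (h1 k) (h2 k) q one_pos
  have near : ∀ k, ∀ b ∈ A, b ⊆ a k → b ∈ q → |ν k b - ν k (a k)| ≤ 1 := by
    intro k b k1 k2 k3
    have := a3 k (a k \ b) (sdiff_mem (a1 k) k1) diff_subset fun k4 => by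
      have := inter_mem k4 k3
      rw [diff_inter_self] at this
      exact q.empty_notMem this
    rwa [(h1 k).sdiff (a1 k) k1 k2, abs_sub_comm] at this
  by_cases hθ : ∃ T0, ∀ k, |ν k (a k)| ≤ T0
  · obtain ⟨T0, hT0⟩ := hθ
    have hT : 0 ≤ T0 := (abs_nonneg _).trans (hT0 0)
    refine ⟨T0 + 1, fun U u1 u2 M => ?_⟩
    obtain ⟨S, hS⟩ := h3 U u1
    obtain ⟨k, b, b1, b2, b3⟩ := hq U u1 u2 (|M| + S)
    have hS0 : 0 ≤ S := (abs_nonneg _).trans (hS 0)
    have hM := le_abs_self M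
    refine ⟨ν k, ⟨k, k, 0, by simp, by simp⟩, ?_⟩
    have hlast : ∃ a' ∈ A, a' ∈ q ∧ ∀ b' ∈ A, b' ⊆ a' → |ν k b'| ≤ T0 + 1 := by
      refine ⟨a k, a1 k, a2 k, fun b' k1 k2 => ?_⟩
      by_cases k3 : b' ∈ q
      · have k4 := near k b' k1 k2 k3
        have k5 := hT0 k
        rw [abs_le] at k4 k5 ⊢
        constructor <;> linarith [k4.1, k4.2, k5.1, k5.2]
      · linarith [a3 k b' k1 k2 k3]
    by_cases hb : b ∈ q
    · refine ⟨U \ b, sdiff_mem u1 b1, diff_subset, fun k4 => ?_, ?_, hlast⟩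
      · have := inter_mem k4 hb
        rw [diff_inter_self] at this
        exact q.empty_notMem this
      · rw [(h1 k).sdiff u1 b1 b2]
        have k5 := abs_sub_abs_le_abs_sub (ν k b) (ν k U)
        rw [abs_sub_comm] at k5
        linarith [hS k]
    · exact ⟨b, b1, b2, hb, by linarith, hlast⟩
  · push Not at hθ
    refine ⟨2, fun U u1 u2 M => ?_⟩
    obtain ⟨S, hS⟩ := h3 U u1
    have hS0 : 0 ≤ S := (abs_nonneg _).trans (hS 0)
    obtain ⟨k, hk⟩ := hθ (|M| + S + 2)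
    have hM := le_abs_self M
    have hM0 := abs_nonneg M
    have b1 : U \ (U ∩ a k) ∈ A := sdiff_mem u1 (inf_mem u1 (a1 k))
    obtain ⟨S', hS'⟩ := h3 _ b1
    have hS0' : 0 ≤ S' := (abs_nonneg _).trans (hS' 0)
    obtain ⟨k', hk'⟩ := hθ (|ν k (a k)| * (S' + 1))
    have hpos : 0 < |ν k' (a k')| := lt_of_le_of_lt (by positivity) hk'
    have hne : ν k' (a k') ≠ 0 := abs_pos.1 hpos
    have hc1 : |ν k (a k) / ν k' (a k')| * (S' + 1) ≤ 1 := by
      rw [abs_div, div_mul_eq_mul_div, div_le_one hpos]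
      exact hk'.le
    have hc0 := abs_nonneg (ν k (a k) / ν k' (a k'))
    have hc : |ν k (a k) / ν k' (a k')| ≤ 1 := by nlinarith
    refine ⟨_, ⟨k, k', ν k (a k) / ν k' (a k'), hc, rfl⟩, U \ (U ∩ a k), b1, diff_subset,
      fun k4 => ?_, ?_, a k ∩ a k', inf_mem (a1 k) (a1 k'), inter_mem (a2 k) (a2 k'),
      fun b' k1 k2 => ?_⟩
    · have := inter_mem k4 (inter_mem u2 (a2 k))
      rw [diff_inter_self] at this
      exact q.empty_notMem this
    · have e1 := (h1 k).sdiff u1 (inf_mem u1 (a1 k)) inter_subset_left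
      have e2 := near k (U ∩ a k) (inf_mem u1 (a1 k)) inter_subset_right (inter_mem u2 (a2 k))
      have e3 : |ν k (a k) / ν k' (a k') * ν k' (U \ (U ∩ a k))| ≤ 1 := by
        rw [abs_mul]
        have := mul_le_mul_of_nonneg_left (hS' k') hc0
        nlinarith
      have e4 := hS k
      show M ≤ |ν k (U \ (U ∩ a k)) - ν k (a k) / ν k' (a k') * ν k' (U \ (U ∩ a k))|
      have e1' : ν k (U \ (U ∩ a k)) = ν k U - ν k (U ∩ a k) := e1
      rw [e1']
      rw [abs_le] at e2 e3 e4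
      rw [lt_abs] at hk
      rw [le_abs]
      rcases hk with hk | hk
      · right; linarith [e2.1, e2.2, e3.1, e3.2, e4.1, e4.2]
      · left; linarith [e2.1, e2.2, e3.1, e3.2, e4.1, e4.2]
    · show |ν k b' - ν k (a k) / ν k' (a k') * ν k' b'| ≤ 2
      by_cases k3 : b' ∈ q
      · have e1 := near k b' k1 (k2.trans inter_subset_left) k3
        have e2 := near k' b' k1 (k2.trans inter_subset_right) k3
        have e3 : ν k b' - ν k (a k) / ν k' (a k') * ν k' b' = (ν k b' - ν k (a k)) -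
            ν k (a k) / ν k' (a k') * (ν k' b' - ν k' (a k')) := by
          field_simp
          ring
        rw [e3]
        refine (abs_sub _ _).trans ?_
        rw [abs_mul]
        nlinarith [abs_nonneg (ν k' b' - ν k' (a k'))]
      · have e1 := a3 k b' k1 (k2.trans inter_subset_left) k3
        have e2 := a3 k' b' k1 (k2.trans inter_subset_right) k3
        refine (abs_sub _ _).trans ?_
        rw [abs_mul]
        nlinarith [abs_nonneg (ν k' b')]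

theorem nik_core (hC : Cones ⊆ A) (hI : ∀ a ∈ A, Lin a ∧ Thick a) (hG : Guessing A)
    {ν : ℕ → Set Pt → ℝ} (h1 : ∀ k, Add A (ν k)) (h2 : ∀ k, Bdd A (ν k))
    (h3 : ∀ a ∈ A, ∃ S, ∀ k, |ν k a| ≤ S) : ∃ K, ∀ k, ∀ a ∈ A, |ν k a| ≤ K := by
  by_contra hcon
  let Bd : Set Pt → Prop := fun a => ∃ K, ∀ k, ∀ b ∈ A, b ⊆ a → |ν k b| ≤ K
  let F : Filter Pt :=
    { sets := {s | ∃ a ∈ A, Bd a ∧ aᶜ ⊆ s}
      univ_sets := by
        obtain ⟨S, hS⟩ := h3 ∅ bot_mem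
        refine ⟨∅, bot_mem, ⟨S, fun k b _ hb => ?_⟩, subset_univ _⟩
        rw [subset_empty_iff.1 hb]
        exact hS k
      sets_of_superset := by
        rintro s t ⟨a, k1, k2, k3⟩ h
        exact ⟨a, k1, k2, k3.trans h⟩
      inter_sets := by
        rintro s t ⟨a, k1, ⟨K, k2⟩, k3⟩ ⟨a', k1', ⟨K', k2'⟩, k3'⟩
        refine ⟨a ∪ a', sup_mem k1 k1', ⟨K + K', fun k b hb hb' => ?_⟩, ?_⟩
        · have e := (h1 k).sdiff hb (inf_mem hb k1) inter_subset_left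
          have e1 := k2 k (b ∩ a) (inf_mem hb k1) inter_subset_right
          have e2 := k2' k (b \ (b ∩ a)) (sdiff_mem hb (inf_mem hb k1)) (fun p hp =>
            (hb' hp.1).resolve_left fun h => hp.2 ⟨hp.1, h⟩)
          have e' : ν k (b \ (b ∩ a)) = ν k b - ν k (b ∩ a) := e
          rw [e'] at e2
          rw [abs_le] at e1 e2 ⊢
          constructor <;> linarith [e1.1, e1.2, e2.1, e2.2]
        · rw [compl_union]
          exact inter_subset_inter k3 k3' }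
  haveI : F.NeBot := by
    rw [← Filter.forall_mem_nonempty_iff_neBot]
    rintro s ⟨a, k1, ⟨K, k2⟩, k3⟩
    by_contra hs
    rw [not_nonempty_iff_eq_empty] at hs
    subst hs
    exact hcon ⟨K, fun k b hb => k2 k b hb fun p _ => by_contra fun hp => k3 hp⟩
  let q : Ultrafilter Pt := Ultrafilter.of F
  have hq : ∀ a ∈ A, a ∈ q → ∀ K, ∃ k, ∃ b ∈ A, b ⊆ a ∧ K < |ν k b| := by
    intro a ha haq K
    by_contra hn
    push Not at hn
    have : aᶜ ∈ q := Ultrafilter.of_le F ⟨a, ha, ⟨K, hn⟩, subset_rfl⟩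
    exact Ultrafilter.compl_mem_iff_notMem.1 this haq
  obtain ⟨T, hT⟩ := key_claim h1 h2 h3 q hq
  have fam1 : ∀ ρ, Fam ν ρ → Add A ρ := by
    rintro _ ⟨k, k', c, hc, rfl⟩ a ha b hb hab
    simp only [h1 k a ha b hb hab, h1 k' a ha b hb hab]
    ring
  have faux : ∀ u v c S S' : ℝ, |c| ≤ 1 → |u| ≤ S → |v| ≤ S' → |u - c * v| ≤ S + S' := by
    intro u v c S S' k1 k2 k3
    refine (abs_sub _ _).trans ?_
    rw [abs_mul]
    nlinarith [abs_nonneg v, abs_nonneg c]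
  have fam2 : ∀ ρ, Fam ν ρ → Bdd A ρ := by
    rintro _ ⟨k, k', c, hc, rfl⟩
    obtain ⟨K, hK⟩ := h2 k
    obtain ⟨K', hK'⟩ := h2 k'
    exact ⟨K + K', fun a ha => faux _ _ _ _ _ hc (hK a ha) (hK' a ha)⟩
  have fam3 : ∀ a ∈ A, ∃ S, ∀ ρ, Fam ν ρ → |ρ a| ≤ S := by
    intro a ha
    obtain ⟨S, hS⟩ := h3 a ha
    refine ⟨S + S, ?_⟩
    rintro _ ⟨k, k', c, hc, rfl⟩
    exact faux _ _ _ _ _ hc (hS k) (hS k')
  let Adm : St → Prop := fun s =>
    s.1 ∈ A ∧ s.2.1 ∈ A ∧ Disjoint s.1 s.2.1 ∧ s.2.1 ∈ q ∧ ∀ m, Good m s.1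
  let R : St → St → Prop := fun s s' =>
    s'.2.2.1 = s.2.2.1 + 1 ∧ ∃ ρ, Fam ν ρ ∧ s.2.2.1 + T ≤ |ρ s'.1| ∧
      ∀ b ∈ A, b ⊆ s'.2.1 → |ρ b| ≤ T
  obtain ⟨s, hs, hx⟩ := hG Adm R
    ⟨(∅, univ, 0, 0, 0), bot_mem, top_mem, by simp, univ_mem,
      fun m => Eventually.of_forall fun k => phi_empty m k⟩
    (fun s hs => ⟨hs.1, hs.2.1, hs.2.2.1⟩)
    (by
      rintro ⟨P, U, n, t⟩ ⟨a1, a2, a3, a4, a5⟩ e he
      simp only at a1 a2 a3 a4 a5
      obtain ⟨S, hS⟩ := fam3 P a1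
      obtain ⟨ρ, r1, b, b1, b2, b3, b4, a, c1, c2, c3⟩ := hT U a2 a4 (n + T + S + 1)
      obtain ⟨c, d1, d2, d3, d4⟩ := tot_good hC hI hG (fam1 ρ r1) (fam2 ρ r1) b1
      have d5 : c ∉ q := fun h => b3 (mem_of_superset h d2)
      have d6 : U \ c ∈ q := inter_mem a4 (Ultrafilter.compl_mem_iff_notMem.2 d5)
      obtain ⟨m, n', r, g1⟩ := (hI _ (sdiff_mem a2 d1)).2 (q.nonempty_of_mem d6)
      obtain ⟨n'', r', g2, g3⟩ := subcone_not q m n' r
      have he' : ∃ e' ∈ A, e' ∈ q ∧ (e' ⊆ e ∨ e' ⊆ eᶜ) := by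
        rcases q.mem_or_compl_mem e with h | h
        · exact ⟨e, he, h, Or.inl subset_rfl⟩
        · exact ⟨eᶜ, compl_mem he, h, Or.inr subset_rfl⟩
      obtain ⟨e', e1, e2, e3⟩ := he'
      have hPc : Disjoint P c := a3.mono_right (d2.trans b2)
      refine ⟨(P ∪ c, ((U \ c) \ cone m n'' r') ∩ (a ∩ e'), n + 1, t), ⟨sup_mem a1 d1,
        inf_mem (sdiff_mem (sdiff_mem a2 d1) (hC (cone_mem _ _ _))) (inf_mem c1 e1), ?_,
        inter_mem (inter_mem d6 (Ultrafilter.compl_mem_iff_notMem.2 g3)) (inter_mem c2 e2),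
        fun m' => (a5 m').union (d4 m') hPc⟩, ⟨rfl, ρ, r1, ?_, fun b' k1 k2 => c3 b' k1
          fun p hp => (k2 hp).2.1⟩, ⟨fun p hp => hp.1.1.1, subset_union_left,
          union_subset_union_right _ (d2.trans b2), ?_⟩, ?_⟩
      · refine Set.disjoint_left.2 ?_
        rintro p (hp | hp) hp'
        · exact Set.disjoint_left.1 a3 hp hp'.1.1.1
        · exact hp'.1.1.2 hp
      · show (n : ℝ) + T ≤ |ρ (P ∪ c)|
        rw [fam1 ρ r1 P a1 c d1 hPc]
        have k1 := hS ρ r1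
        rw [abs_le] at k1 d3
        rw [le_abs] at b4 ⊢
        rcases b4 with b4 | b4
        · left; linarith [k1.1, k1.2, d3.1, d3.2]
        · right; linarith [k1.1, k1.2, d3.1, d3.2]
      · have g := self_mem_cone m n'' r'
        refine ⟨_, ⟨(g1 (g2 g)).1, fun h => h.1.2 g⟩, ?_⟩
        rintro (h | h)
        · exact Set.disjoint_left.1 a3 h (g1 (g2 g)).1
        · exact (g1 (g2 g)).2 h
      · exact e3.imp (fun h p hp => h hp.2.2) (fun h p hp => h hp.2.2))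
    (by
      intro s hs hdec
      have hev : ∀ᶠ m in atTop, piece m ∉ q := by
        by_cases h : ∃ m0, piece m0 ∈ q
        · obtain ⟨m0, h⟩ := h
          filter_upwards [eventually_ne_atTop m0] with m hm h'
          obtain ⟨p, k1, k2⟩ := q.nonempty_of_mem (inter_mem h h')
          exact hm ((mem_piece.1 k2).symm.trans (mem_piece.1 k1))
        · exact Eventually.of_forall fun m h' => h ⟨m, h'⟩
      filter_upwards [hev] with m hm
      obtain ⟨j, hj | hj⟩ := hdec m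
      · exact absurd (mem_of_superset (hs j).1.2.2.2.1 hj) hm
      · have e := inter_eq (P := fun j => (s j).1) (U := fun j => (s j).2.1)
          (fun j => (hs j).2.2) j hj
        filter_upwards [(hs j).1.2.2.2.2 m] with k hk
        rw [← hk]
        refine phi_congr fun y _ _ => ⟨fun h => ?_, fun h => mem_iUnion.2 ⟨j, h⟩⟩
        have : (m, y) ∈ piece m ∩ ⋃ i, (s i).1 := ⟨mem_piece.2 rfl, h⟩
        rw [e] at this
        exact this.2)
  obtain ⟨S, hS⟩ := fam3 _ hx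
  have hn : ∀ j, j ≤ (s j).2.2.1 := by
    intro j
    induction j with
    | zero => exact Nat.zero_le _
    | succ j ih => rw [(hs j).2.1.1]; omega
  obtain ⟨j, hj⟩ := exists_nat_gt S
  obtain ⟨ρ, r1, r2, r3⟩ := (hs j).2.1.2
  have e := union_eq (P := fun j => (s j).1) (U := fun j => (s j).2.1)
    (fun j => (hs j).2.2) (j + 1)
  have k0 : (⋃ i, (s i).1) ∩ (s (j + 1)).2.1 ∈ A := inf_mem hx (hs (j + 1)).1.2.1
  have k1 := fam1 ρ r1 _ (hs (j + 1)).1.1 _ k0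
    ((hs (j + 1)).1.2.2.1.mono_right inter_subset_right)
  have k2 := r3 _ k0 inter_subset_right
  have k3 := hS ρ r1
  have k4 : (j : ℝ) ≤ (s j).2.2.1 := by exact_mod_cast hn j
  rw [← e] at k1
  rw [k1] at k3
  rw [abs_le] at k2 k3
  rw [le_abs] at r2
  rcases r2 with r2 | r2 <;> linarith [k2.1, k2.2, k3.1, k3.2]

section

variable {B : Type} [BooleanAlgebra B] {μ : B → ℝ}

lemma add_bot (h : ∀ a b : B, Disjoint a b → μ (a ⊔ b) = μ a + μ b) : μ ⊥ = 0 := by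
  have := h ⊥ ⊥ disjoint_bot_left
  rw [sup_idem] at this
  linarith

lemma add_sum (h : ∀ a b : B, Disjoint a b → μ (a ⊔ b) = μ a + μ b) (s : Finset B)
    (hs : (s : Set B).PairwiseDisjoint id) : μ (s.sup id) = ∑ a ∈ s, μ a := by
  classical
  induction s using Finset.induction_on with
  | empty => simpa using add_bot h
  | insert a s ha ih =>
    rw [Finset.sup_insert, Finset.sum_insert ha, ← ih (hs.subset (by simp))]
    apply h
    rw [Finset.disjoint_sup_right]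
    intro b hb
    exact hs (by simp) (by simp [hb]) (fun e => ha (e ▸ hb))

lemma varLe_of_bdd (h : ∀ a b : B, Disjoint a b → μ (a ⊔ b) = μ a + μ b) {K : ℝ}
    (hK : ∀ a, |μ a| ≤ K) : VarLe μ (2 * K) := by
  classical
  intro s hs _
  rw [← Finset.sum_filter_add_sum_filter_not s (fun a => 0 ≤ μ a)]
  have e1 : ∑ a ∈ s.filter (fun a => 0 ≤ μ a), |μ a| = μ ((s.filter (fun a => 0 ≤ μ a)).sup id) := by
    rw [add_sum h _ (hs.subset (Finset.coe_subset.2 (Finset.filter_subset _ _)))]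
    exact Finset.sum_congr rfl fun a ha => abs_of_nonneg (Finset.mem_filter.1 ha).2
  have e2 : ∑ a ∈ s.filter (fun a => ¬ 0 ≤ μ a), |μ a| =
      - μ ((s.filter (fun a => ¬ 0 ≤ μ a)).sup id) := by
    rw [add_sum h _ (hs.subset (Finset.coe_subset.2 (Finset.filter_subset _ _))),
      ← Finset.sum_neg_distrib]
    exact Finset.sum_congr rfl fun a ha => abs_of_neg (not_le.1 (Finset.mem_filter.1 ha).2)
  rw [e1, e2]
  have k1 := abs_le.1 (hK ((s.filter (fun a => 0 ≤ μ a)).sup id))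
  have k2 := abs_le.1 (hK ((s.filter (fun a => ¬ 0 ≤ μ a)).sup id))
  linarith [k1.1, k1.2, k2.1, k2.2]

lemma bdd_of_varLe (h : ∀ a b : B, Disjoint a b → μ (a ⊔ b) = μ a + μ b) {K : ℝ}
    (hK : VarLe μ K) (a : B) : |μ a| ≤ K := by
  classical
  have h1 := hK {a, aᶜ} (by
    intro x hx y hy hxy
    simp only [Finset.coe_insert, Finset.coe_singleton, mem_insert_iff, mem_singleton_iff] at hx hy
    rcases hx with rfl | rfl <;> rcases hy with rfl | rfl
    · exact absurd rfl hxy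
    · exact disjoint_compl_right
    · exact disjoint_compl_left
    · exact absurd rfl hxy) (by simp)
  exact (Finset.single_le_sum (f := fun a => |μ a|) (fun _ _ => abs_nonneg _)
    (Finset.mem_insert_self a {aᶜ})).trans h1

end

lemma sub_disj {a b : A} : Disjoint a b ↔ Disjoint a.1 b.1 := by
  rw [disjoint_iff, disjoint_iff, Subtype.ext_iff]
  rfl

theorem nikodym (hC : Cones ⊆ A) (hI : ∀ a ∈ A, Lin a ∧ Thick a) (hG : Guessing A) :
    Nikodym A := by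
  classical
  intro μ h1 h2
  let ν : ℕ → Set Pt → ℝ := fun k a => if h : a ∈ A then μ k ⟨a, h⟩ else 0
  have hν : ∀ k a (h : a ∈ A), ν k a = μ k ⟨a, h⟩ := fun k a h => dif_pos h
  obtain ⟨K, hK⟩ := nik_core hC hI hG (ν := ν)
    (fun k a ha b hb hab => by
      rw [hν k a ha, hν k b hb, hν k (a ∪ b) (sup_mem ha hb)]
      exact (h1 k).1 ⟨a, ha⟩ ⟨b, hb⟩ (sub_disj.2 hab))
    (fun k => by
      obtain ⟨K, hK⟩ := (h1 k).2
      exact ⟨K, fun a ha => by rw [hν k a ha]; exact bdd_of_varLe (h1 k).1 hK _⟩)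
    (fun a ha => by
      obtain ⟨K, hK⟩ := h2 ⟨a, ha⟩ trivial
      exact ⟨K, fun k => by rw [hν k a ha]; exact hK k⟩)
  refine ⟨2 * K, fun k => varLe_of_bdd (h1 k).1 fun a => ?_⟩
  have := hK k a.1 a.2
  rwa [hν k a.1 a.2] at this

theorem not_strong (hC : Cones ⊆ A) (hI : ∀ a ∈ A, Lin a ∧ Thick a) :
    ∃ D : ℕ → Set A, Monotone D ∧ (∀ a, ∃ n, a ∈ D n) ∧ ∀ n, ∃ μ : ℕ → A → ℝ,
      (∀ k, (∀ a b : A, Disjoint a b → μ k (a ⊔ b) = μ k a + μ k b) ∧
        ∃ K : ℝ, ∀ a, |μ k a| ≤ K) ∧ (∀ a ∈ D n, ∃ K : ℝ, ∀ k, |μ k a| ≤ K) ∧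
        ¬ ∃ K : ℝ, ∀ k a, |μ k a| ≤ K := by
  refine ⟨fun n => {a | ∀ m, n ≤ m → Good m a.1}, fun n n' h a ha m hm => ha m (h.trans hm),
    fun a => eventually_atTop.1 (hI a.1 a.2).1.1, fun n => ⟨fun k a => phi n k a.1, fun k => ⟨?_, ?_⟩,
      ?_, ?_⟩⟩
  · intro a b hab
    have := phi_union n k (sub_disj.1 hab)
    show ((phi n k (a.1 ∪ b.1) : ℤ) : ℝ) = (phi n k a.1 : ℝ) + (phi n k b.1 : ℝ)
    exact_mod_cast this
  · refine ⟨3 ^ k, fun a => ?_⟩
    show |(phi n k a.1 : ℝ)| ≤ 3 ^ k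
    exact_mod_cast phi_le n k a.1
  · intro a ha
    obtain ⟨K, hK⟩ := eventually_atTop.1 (ha n le_rfl)
    refine ⟨3 ^ K, fun k => ?_⟩
    rcases le_total K k with h | h
    · simp only [hK k h]
      simp
    · have h1 : |phi n k a.1| ≤ 3 ^ K :=
        (phi_le n k a.1).trans (pow_le_pow_right₀ (by norm_num) h)
      show |(phi n k a.1 : ℝ)| ≤ 3 ^ K
      exact_mod_cast h1
  · rintro ⟨K, hK⟩
    obtain ⟨k, hk⟩ := pow_unbounded_of_one_lt K (by norm_num : (1 : ℝ) < 3)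
    obtain ⟨c, c1, -, -, c2, -⟩ := block (n := 0) (K := k) (K' := k + 1) n 0 (Nat.zero_le _)
      (Nat.le_succ _) (fun k => 3 ^ k) (fun k _ => by simp)
    have h1 := hK k ⟨c, closure_le.2 hC c1⟩
    simp only [c2 k le_rfl (Nat.lt_succ_self k)] at h1
    push_cast at h1
    rw [abs_of_nonneg (by positivity)] at h1
    linarith

theorem main (h : Diamond) : ∃ (B : Type) (_ : BooleanAlgebra B),
    Infinite B ∧ MinGen B ∧ Nikodym B ∧ ¬ StrongNikodym B := by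
  obtain ⟨A, h1, h2, h3, h4⟩ := exists_alg h
  refine ⟨A, inferInstance, ?_, h1, nikodym h2 h3 h4, fun hS => ?_⟩
  · refine Infinite.of_injective (fun m : ℕ => (⟨piece m, h2 (cone_mem _ _ _)⟩ : A)) ?_
    intro m m' e
    have e1 : piece m = piece m' := congrArg Subtype.val e
    have : (m, 0) ∈ piece m' := by rw [← e1]; exact mem_piece.2 rfl
    exact mem_piece.1 this
  · obtain ⟨D, d1, d2, d3⟩ := not_strong h2 h3
    obtain ⟨n, hn⟩ := hS D d1 (eq_univ_of_forall fun a => mem_iUnion.2 (d2 a))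
    obtain ⟨μ, m1, m2, m3⟩ := d3 n
    obtain ⟨K, hK⟩ := hn μ (fun k => ⟨(m1 k).1, by
      obtain ⟨K, hK⟩ := (m1 k).2
      exact ⟨_, varLe_of_bdd (m1 k).1 hK⟩⟩) m2
    exact m3 ⟨K, fun k a => bdd_of_varLe (m1 k).1 (hK k) a⟩

end Pool.Agent.H273Z.Nik
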