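import Pool.Agent.H273Z.Nik.Comb

set_option autoImplicit false
set_option linter.all false

namespace Pool.Agent.H273Z.Nik

open Set BooleanSubalgebra Filter

def Good (m : ℕ) (a : Set Pt) : Prop := ∀ᶠ k in atTop, phi m k a = 0

def Small (m : ℕ) (a : Set Pt) : Prop := ∀ n, ∀ᶠ k in atTop, 3 ^ n * |phi m k a| ≤ 3 ^ k

def Lin (a : Set Pt) : Prop := (∀ᶠ m in atTop, Good m a) ∧ ∀ m, Small m a

def Thick (a : Set Pt) : Prop := a.Nonempty → ∃ m n r, cone m n r ⊆ a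

lemma Good.union {m : ℕ} {a b : Set Pt} (ha : Good m a) (hb : Good m b) (h : Disjoint a b) :
    Good m (a ∪ b) := by
  filter_upwards [ha, hb] with k h1 h2
  rw [phi_union m k h, h1, h2, add_zero]

lemma Good.sdiff {m : ℕ} {a b : Set Pt} (ha : Good m a) (hb : Good m b) (h : b ⊆ a) :
    Good m (a \ b) := by
  filter_upwards [ha, hb] with k h1 h2
  rw [phi_sdiff m k h, h1, h2, sub_zero]

lemma small_aux {n k : ℕ} {u v w : ℤ} (h1 : 3 ^ (n + 1) * |u| ≤ 3 ^ k)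
    (h2 : 3 ^ (n + 1) * |v| ≤ 3 ^ k) (h : |w| ≤ |u| + |v|) : 3 ^ n * |w| ≤ 3 ^ k := by
  have hp : (0 : ℤ) < 3 ^ n := by positivity
  have h3 : 3 ^ n * |w| ≤ 3 ^ n * (|u| + |v|) := mul_le_mul_of_nonneg_left h hp.le
  have h4 : (0 : ℤ) ≤ 3 ^ k := by positivity
  rw [pow_succ] at h1 h2
  nlinarith

lemma Small.union {m : ℕ} {a b : Set Pt} (ha : Small m a) (hb : Small m b) (h : Disjoint a b) :
    Small m (a ∪ b) := by
  intro n
  filter_upwards [ha (n + 1), hb (n + 1)] with k h1 h2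
  rw [phi_union m k h]
  exact small_aux h1 h2 (abs_add_le _ _)

lemma Small.sdiff {m : ℕ} {a b : Set Pt} (ha : Small m a) (hb : Small m b) (h : b ⊆ a) :
    Small m (a \ b) := by
  intro n
  filter_upwards [ha (n + 1), hb (n + 1)] with k h1 h2
  rw [phi_sdiff m k h]
  exact small_aux h1 h2 (abs_sub _ _)

lemma Lin.union {a b : Set Pt} (ha : Lin a) (hb : Lin b) (h : Disjoint a b) : Lin (a ∪ b) :=
  ⟨by filter_upwards [ha.1, hb.1] with m h1 h2 using h1.union h2 h,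
    fun m => (ha.2 m).union (hb.2 m) h⟩

lemma Lin.sdiff {a b : Set Pt} (ha : Lin a) (hb : Lin b) (h : b ⊆ a) : Lin (a \ b) :=
  ⟨by filter_upwards [ha.1, hb.1] with m h1 h2 using h1.sdiff h2 h,
    fun m => (ha.2 m).sdiff (hb.2 m) h⟩

lemma good_of_mem {a : Set Pt} (ha : a ∈ cl Cones) (m : ℕ) : Good m a := by
  obtain ⟨n, hn⟩ := per_of_mem ha
  filter_upwards [eventually_ge_atTop n] with k hk using phi_per hn hk m

lemma inv_base {a : Set Pt} (ha : a ∈ cl Cones) : Lin a ∧ Thick a := by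
  refine ⟨⟨Eventually.of_forall (good_of_mem ha), fun m n => ?_⟩, ?_⟩
  · filter_upwards [good_of_mem ha m] with k hk
    rw [hk]; simp
  · obtain ⟨n, hn⟩ := per_of_mem ha
    rintro ⟨⟨m, r⟩, hp⟩
    refine ⟨m, n, r, ?_⟩
    rintro ⟨m', y⟩ ⟨h1, h2⟩
    simp only at h1 h2
    subst h1
    exact (hn _ _ _ h2).2 hp

/-- one move -/
def Mono (P U P' U' : Set Pt) : Prop :=
  U' ⊆ U ∧ P ⊆ P' ∧ P' ⊆ P ∪ U ∧ ((U \ U') \ P').Nonempty

structure Valid (B : BooleanSubalgebra (Set Pt)) (P U : ℕ → Set Pt) : Prop where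
  memP : ∀ j, P j ∈ B
  memU : ∀ j, U j ∈ B
  disj : ∀ j, Disjoint (P j) (U j)
  mono : ∀ j, Mono (P j) (U j) (P (j + 1)) (U (j + 1))
  dec : ∀ e ∈ B, ∃ j, U j ⊆ e ∨ U j ⊆ eᶜ
  good : ∀ᶠ m in atTop, Good m (⋃ j, P j)

section

variable {P U : ℕ → Set Pt}

lemma U_anti (h : ∀ j, Mono (P j) (U j) (P (j + 1)) (U (j + 1))) : Antitone U :=
  antitone_nat_of_succ_le fun j => (h j).1

lemma P_mono (h : ∀ j, Mono (P j) (U j) (P (j + 1)) (U (j + 1))) : Monotone P :=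
  monotone_nat_of_le_succ fun j => (h j).2.1

lemma union_sub (h : ∀ j, Mono (P j) (U j) (P (j + 1)) (U (j + 1))) (j : ℕ) :
    (⋃ i, P i) ⊆ P j ∪ U j := by
  refine iUnion_subset fun i => ?_
  rcases le_total i j with hij | hij
  · exact (P_mono h hij).trans subset_union_left
  · induction i, hij using Nat.le_induction with
    | base => exact subset_union_left
    | succ i hi ih =>
      exact (h i).2.2.1.trans (union_subset ih ((U_anti h hi).trans subset_union_right))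

lemma union_eq (h : ∀ j, Mono (P j) (U j) (P (j + 1)) (U (j + 1))) (j : ℕ) :
    (⋃ i, P i) = P j ∪ ((⋃ i, P i) ∩ U j) := by
  apply subset_antisymm
  · intro p hp
    rcases union_sub h j hp with h1 | h1
    · exact Or.inl h1
    · exact Or.inr ⟨hp, h1⟩
  · exact union_subset (subset_iUnion P j) inter_subset_left

lemma inter_eq (h : ∀ j, Mono (P j) (U j) (P (j + 1)) (U (j + 1))) (j : ℕ) {e : Set Pt}
    (he : U j ⊆ eᶜ) : e ∩ (⋃ i, P i) = e ∩ P j := by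
  apply subset_antisymm
  · rintro p ⟨h1, hp⟩
    rcases union_sub h j hp with h2 | h2
    · exact ⟨h1, h2⟩
    · exact absurd h1 (he h2)
  · exact inter_subset_inter_right _ (subset_iUnion P j)

variable {B : BooleanSubalgebra (Set Pt)}

lemma Valid.crit (h : Valid B P U) (a : Set Pt) (ha : a ∈ B) :
    a ⊓ (⋃ i, P i) ∈ B ∨ aᶜ ⊓ (⋃ i, P i) ∈ B := by
  obtain ⟨j, hj | hj⟩ := h.dec a ha
  · right
    show aᶜ ∩ _ ∈ B
    rw [inter_eq h.mono j (by rwa [compl_compl])]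
    exact inf_mem (compl_mem ha) (h.memP j)
  · left
    show a ∩ _ ∈ B
    rw [inter_eq h.mono j hj]
    exact inf_mem ha (h.memP j)

lemma Valid.small (h : Valid B P U) (hC : Cones ⊆ B) (hB : ∀ a ∈ B, Lin a) (m : ℕ) :
    Small m (⋃ i, P i) := by
  intro n
  have h1 : ∃ j r, ∀ y, (m, y) ∈ U j → y % 3 ^ (n + 1) = r % 3 ^ (n + 1) := by
    choose J hJ using fun r => h.dec (cone m (n + 1) r) (hC (cone_mem _ _ _))
    by_cases h2 : ∃ r, r < 3 ^ (n + 1) ∧ U (J r) ⊆ cone m (n + 1) r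
    · obtain ⟨r, -, hr⟩ := h2
      exact ⟨J r, r, fun y hy => (hr hy).2⟩
    · push Not at h2
      refine ⟨(Finset.range (3 ^ (n + 1))).sup J, 0, fun y hy => ?_⟩
      exfalso
      have hr : y % 3 ^ (n + 1) < 3 ^ (n + 1) := Nat.mod_lt _ (by positivity)
      have h3 := (hJ (y % 3 ^ (n + 1))).resolve_left (h2 _ hr)
      have h4 : J (y % 3 ^ (n + 1)) ≤ (Finset.range (3 ^ (n + 1))).sup J :=
        Finset.le_sup (f := J) (Finset.mem_range.2 hr)
      exact h3 (U_anti h.mono h4 hy) ⟨rfl, by simp⟩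
  obtain ⟨j, r, hj⟩ := h1
  filter_upwards [(hB _ (h.memP j)).2 m (n + 1), eventually_ge_atTop (n + 1)] with k h2 h3
  rw [union_eq h.mono j, phi_union m k ((h.disj j).mono_right inter_subset_right)]
  exact small_aux h2 (phi_cone_le h3 fun y hy => hj y hy.2) (abs_add_le _ _)

lemma Valid.step (h : Valid B P U) (hC : Cones ⊆ B) (hB : ∀ a ∈ B, Lin a ∧ Thick a)
    {y : Set Pt} (hy : y ∈ cl (insert (⋃ i, P i) (B : Set (Set Pt)))) : Lin y ∧ Thick y := by
  obtain ⟨b, hb, b', hb', rfl⟩ := mem_closure_insert B _ hy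
  have hx : Lin (⋃ i, P i) := ⟨h.good, h.small hC fun a ha => (hB a ha).1⟩
  have h1 : ∀ e ∈ B, Lin (e ∩ ⋃ i, P i) := by
    intro e he
    rcases h.crit e he with h2 | h2
    · exact (hB _ h2).1
    · have : e ∩ ⋃ i, P i = (⋃ i, P i) \ (eᶜ ∩ ⋃ i, P i) := by
        ext p; simp only [mem_inter_iff, mem_diff, mem_compl_iff]; tauto
      rw [this]
      exact hx.sdiff (hB _ h2).1 inter_subset_right
  constructor
  · apply Lin.union (h1 b hb)
    · have : b' ⊓ (⋃ i, P i)ᶜ = b' \ (b' ∩ ⋃ i, P i) := by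
        ext p; simp only [inf_eq_inter, mem_inter_iff, mem_diff, mem_compl_iff]; tauto
      rw [this]
      exact (hB _ hb').1.sdiff (h1 b' hb') inter_subset_left
    · exact Set.disjoint_left.2 fun p h2 h3 => h3.2 h2.2
  · rintro ⟨p, hp | hp⟩
    · obtain ⟨h2, h3⟩ := hp
      obtain ⟨j, hj⟩ := mem_iUnion.1 h3
      obtain ⟨m, n, r, hc⟩ := (hB _ (inf_mem hb (h.memP j))).2 ⟨p, h2, hj⟩
      exact ⟨m, n, r, fun q hq => Or.inl ⟨(hc hq).1, mem_iUnion.2 ⟨j, (hc hq).2⟩⟩⟩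
    · obtain ⟨h2, h3⟩ := hp
      have key : ∀ j, ((b' \ U j) \ P j).Nonempty →
          ∃ m n r, cone m n r ⊆ b ⊓ (⋃ i, P i) ⊔ b' ⊓ (⋃ i, P i)ᶜ := by
        intro j hj
        obtain ⟨m, n, r, hc⟩ :=
          (hB _ (sdiff_mem (sdiff_mem hb' (h.memU j)) (h.memP j))).2 hj
        refine ⟨m, n, r, fun q hq => Or.inr ⟨(hc hq).1.1, fun h4 => ?_⟩⟩
        rcases union_sub h.mono j h4 with h5 | h5
        · exact (hc hq).2 h5
        · exact (hc hq).1.2 h5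
      obtain ⟨j, hj | hj⟩ := h.dec b' hb'
      · obtain ⟨q, hq⟩ := (h.mono j).2.2.2
        exact key (j + 1) ⟨q, ⟨hj hq.1.1, hq.1.2⟩, hq.2⟩
      · exact key j ⟨p, ⟨h2, fun h4 => hj h4 h2⟩, fun h4 => h3 (mem_iUnion.2 ⟨j, h4⟩)⟩

end

end Pool.Agent.H273Z.Nik
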